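import Mathlib
import Pool.Agent.W5h46.LS.V6
set_option autoImplicit false

/-!
# Stein's restriction conjecture for densities with spectral gaps, square functions and random series

Let `n ≥ 3` and let `p > 2n/(n-1)` be any exponent in the full conjectured range. There is a number
`δ > 0` such that for every `c > 0` the following holds. Call a function `g` on `S^(n-1)` gapped if
any two degrees `k < l` of the same parity which occur in its spherical harmonic expansion satisfy
`l - k ≥ c k^(1-δ)`. (The components of the degrees which occur are arbitrary spherical harmonics.)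

1. For every gapped `g` in `L^p(S^(n-1))` the Fourier transform of `g dσ` is in `L^p(ℝ^n)`, with norm
   at most `C ‖g‖_p`.
2. More generally for every sequence of gapped functions `g_i` (the degrees which occur may be
   completely different for different `i`)
   `‖ (∑ |FT(g_i dσ)|^2)^(1/2) ‖_p ≤ C ‖ (∑ |g_i|^2)^(1/2) ‖_p`.
3. If `X_i` are independent real random variables with mean `0`, variance `1` and bounded fourth
   moments, the `g_i` are gapped and almost surely `∑ X_i g_i` converges in measure to a function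
   `G_ω` in `L^p(S^(n-1))`, then almost surely the Fourier transform of `G_ω dσ` is in `L^p(ℝ^n)`.
   Note that `G_ω` need not have gaps.
4. If the `g_i` have gaps `c(δ) k^(1-δ)` for every `δ > 0` and `G_ω` is almost surely bounded, then
   almost surely the Fourier transform of `G_ω dσ` is in `L^p(ℝ^n)` for all `p > 2n/(n-1)`.
5. Items 3 and 4 hold when the `g_i` are arbitrary spherical harmonics (any degrees).

Proof: for a degree `k` surrounded by gaps of length `W` the projection to degree `k` is dominated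
by `C (k/W)^(n+1)` times a Poisson average of `|g|`. By positivity the squares of these
averages are dominated by dyadic Poisson averages of `|g|^2`, which are additive; this gives the
square function estimate with a loss of `R^(O(δ))` for the degrees below `16 R`. The Fourier
transform of a spherical harmonic of degree `k` is this harmonic times a Bessel function, whose
`L^p` norm over `R < |x| < 2R` is at most `C R^(-η)` uniformly in `k`. The random series are
treated by a Khintchine type inequality for the fourth moment and a transfer to the limit.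

This theorem contains the theorems `SpectralGaps` (item 1) and `RandomHarmonicSeries` (each `g_i` a
single spherical harmonic).
-/

namespace Pool.Agent.Results.MP_6cbfb8_an.GapSeries

open MeasureTheory Measure Set Metric ProbabilityTheory Filter
open scoped ENNReal NNReal RealInnerProductSpace Topology

universe u

/-- Euclidean space -/
abbrev E (n : ℕ) := EuclideanSpace ℝ (Fin n)

/-- surface measure on the unit sphere -/
noncomputable def sigma (n : ℕ) : Measure (sphere (0 : E n) 1) := (volume : Measure (E n)).toSphere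

/-- the Fourier transform of the measure `g dσ` -/
noncomputable def ft {n : ℕ} (g : sphere (0 : E n) 1 → ℂ) (ξ : E n) : ℂ :=
  ∫ x, Complex.exp (-(2 * Real.pi * ⟪(x : E n), ξ⟫ : ℝ) * Complex.I) * g x ∂(sigma n)

/-- The degree `k` occurs in the spherical harmonic expansion of `g`: the function `g` is not
orthogonal to all spherical harmonics of degree `k` (the restrictions to the sphere of the
homogeneous harmonic polynomials of degree `k`). -/
def Occurs {n : ℕ} (g : sphere (0 : E n) 1 → ℂ) (k : ℕ) : Prop :=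
  ∃ Q : MvPolynomial (Fin n) ℂ, Q.IsHomogeneous k ∧
    ∑ i, MvPolynomial.pderiv i (MvPolynomial.pderiv i Q) = 0 ∧
    ∫ x : sphere (0 : E n) 1, g x * MvPolynomial.eval (fun i => (((x : E n) i : ℝ) : ℂ)) Q
      ∂(sigma n) ≠ 0

/-- Any two degrees `k < l` of the same parity which occur in `g` satisfy `l - k ≥ c k^(1-δ)`. -/
def Gapped {n : ℕ} (c δ : ℝ) (g : sphere (0 : E n) 1 → ℂ) : Prop :=
  ∀ k l : ℕ, Occurs g k → Occurs g l → (Even k ↔ Even l) → k < l →
    c * (k : ℝ) ^ (1 - δ) ≤ (l : ℝ) - k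

/-- `Y` is a spherical harmonic: the restriction to the unit sphere of a homogeneous harmonic
polynomial with complex coefficients. -/
def SphericalHarmonic {n : ℕ} (Y : sphere (0 : E n) 1 → ℂ) : Prop :=
  ∃ (k : ℕ) (Q : MvPolynomial (Fin n) ℂ), Q.IsHomogeneous k ∧
    ∑ i, MvPolynomial.pderiv i (MvPolynomial.pderiv i Q) = 0 ∧
    ∀ x : sphere (0 : E n) 1, Y x = MvPolynomial.eval (fun i => (((x : E n) i : ℝ) : ℂ)) Q

/-- independent real random variables with mean `0`, variance `1` and fourth moments at most `K` -/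
structure Coefficients {Ω : Type u} [MeasurableSpace Ω] (P : Measure Ω) (X : ℕ → Ω → ℝ) (K : ℝ) :
    Prop where
  indep : iIndepFun X P
  meas : ∀ i, Measurable (X i)
  mem : ∀ i, MemLp (X i) 4 P
  mean : ∀ i, ∫ ω, X i ω ∂P = 0
  variance : ∀ i, ∫ ω, X i ω ^ 2 ∂P = 1
  fourth : ∀ i, ∫ ω, X i ω ^ 4 ∂P ≤ K

/-- `G` is the sum of a random series with the terms `X_i g_i`: the `g_i` are integrable and almost
surely `∑ X_i g_i` converges in measure on the sphere to `G ω` -/
def IsRandomSeries {n : ℕ} {Ω : Type u} [MeasurableSpace Ω] (P : Measure Ω)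
    (g : ℕ → sphere (0 : E n) 1 → ℂ) (G : Ω → sphere (0 : E n) 1 → ℂ) : Prop :=
  IsProbabilityMeasure P ∧ (∀ i, Integrable (g i) (sigma n)) ∧
    ∃ (X : ℕ → Ω → ℝ) (K : ℝ), Coefficients P X K ∧ ∀ᵐ ω ∂P, TendstoInMeasure (sigma n)
      (fun N x => ∑ i ∈ Finset.range N, (X i ω : ℂ) * g i x) atTop (G ω)

/-- the `L^p` estimate for the densities in the class `A` -/
def ExtensionBound (n : ℕ) (p : ℝ) (A : (sphere (0 : E n) 1 → ℂ) → Prop) : Prop :=
  ∃ C : ℝ≥0, ∀ g : sphere (0 : E n) 1 → ℂ, MemLp g (ENNReal.ofReal p) (sigma n) → A g →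
    MemLp (ft g) (ENNReal.ofReal p) volume ∧
    eLpNorm (ft g) (ENNReal.ofReal p) volume ≤ C * eLpNorm g (ENNReal.ofReal p) (sigma n)

/-- the square function estimate for the sequences of densities in the class `A` -/
def SquareFunctionBound (n : ℕ) (p : ℝ) (A : (sphere (0 : E n) 1 → ℂ) → Prop) : Prop :=
  ∃ C : ℝ≥0, ∀ g : ℕ → sphere (0 : E n) 1 → ℂ,
    (∀ i, MemLp (g i) (ENNReal.ofReal p) (sigma n)) → (∀ i, A (g i)) →
    (∫⁻ ξ : E n, (∑' i, ‖ft (g i) ξ‖ₑ ^ (2 : ℝ)) ^ (p / 2)) ^ (1 / p) ≤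
      C * (∫⁻ x, (∑' i, ‖g i x‖ₑ ^ (2 : ℝ)) ^ (p / 2) ∂(sigma n)) ^ (1 / p)

/-- for the random series of sequences in the class `A`: if almost surely `G ω` is in `L^p`, then
almost surely the Fourier transform is in `L^p` -/
def AlmostSure (n : ℕ) (p : ℝ) (A : (ℕ → sphere (0 : E n) 1 → ℂ) → Prop) : Prop :=
  ∀ (Ω : Type u) (_ : MeasurableSpace Ω) (P : Measure Ω) (g : ℕ → sphere (0 : E n) 1 → ℂ)
    (G : Ω → sphere (0 : E n) 1 → ℂ), IsRandomSeries P g G → A g →
    (∀ᵐ ω ∂P, MemLp (G ω) (ENNReal.ofReal p) (sigma n)) →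
    ∀ᵐ ω ∂P, MemLp (ft (G ω)) (ENNReal.ofReal p) volume

/-- for the random series of sequences in the class `A`: if almost surely `G ω` is bounded, then
almost surely the Fourier transform is in `L^p` for all `p > 2n/(n-1)` -/
def AlmostSureAll (n : ℕ) (A : (ℕ → sphere (0 : E n) 1 → ℂ) → Prop) : Prop :=
  ∀ (Ω : Type u) (_ : MeasurableSpace Ω) (P : Measure Ω) (g : ℕ → sphere (0 : E n) 1 → ℂ)
    (G : Ω → sphere (0 : E n) 1 → ℂ), IsRandomSeries P g G → A g →
    (∀ᵐ ω ∂P, MemLp (G ω) ∞ (sigma n)) →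
    ∀ᵐ ω ∂P, ∀ p : ℝ, 2 * (n : ℝ) / (n - 1) < p → MemLp (ft (G ω)) (ENNReal.ofReal p) volume

open Pool.Agent.W5h46.LS Pool.Agent.W5h55.SH in
/-- **Theorem.** Stein's restriction conjecture in the full range for gapped densities, with square
functions and random series. -/
theorem result (n : ℕ) (hn : 3 ≤ n) :
    (∀ p : ℝ, 2 * (n : ℝ) / (n - 1) < p → ∃ δ : ℝ, 0 < δ ∧ ∀ c : ℝ, 0 < c →
      ExtensionBound n p (Gapped c δ) ∧ SquareFunctionBound n p (Gapped c δ) ∧
      AlmostSure.{u} n p (fun g => ∀ i, Gapped c δ (g i))) ∧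
    AlmostSureAll.{u} n (fun g => ∀ δ : ℝ, 0 < δ → ∃ c : ℝ, 0 < c ∧ ∀ i, Gapped c δ (g i)) ∧
    (∀ p : ℝ, 2 * (n : ℝ) / (n - 1) < p →
      AlmostSure.{u} n p (fun g => ∀ i, SphericalHarmonic (g i))) ∧
    AlmostSureAll.{u} n (fun g => ∀ i, SphericalHarmonic (g i)) := by
  have hn' : (3 : ℝ) ≤ n := by exact_mod_cast hn
  have hfin : IsFiniteMeasure (sigma n) := sig_finite n
  have hpc : 2 * (n : ℝ) / (n - 1) ≤ 3 := by
    rw [div_le_iff₀ (by linarith)]
    linarith
  have hpc2 : 2 ≤ 2 * (n : ℝ) / (n - 1) := by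
    rw [le_div_iff₀ (by linarith)]
    linarith
  have hpc0 : 0 < 2 * (n : ℝ) / (n - 1) := by linarith
  -- main part
  have main : ∀ p : ℝ, 2 * (n : ℝ) / (n - 1) < p → ∃ δ : ℝ, 0 < δ ∧ ∀ c : ℝ, 0 < c →
      ExtensionBound n p (Gapped c δ) ∧ SquareFunctionBound n p (Gapped c δ) ∧
      AlmostSure.{u} n p (fun g => ∀ i, Gapped c δ (g i)) := by
    intro p hp
    have hp2 : 2 < p := by linarith
    have hp0 : 0 < p := by linarith
    have hP0 : ENNReal.ofReal p ≠ 0 := by simpa using hp0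
    set q : ℝ := min p 4 with hq
    have hqp : q ≤ p := min_le_left _ _
    have hq4 : q ≤ 4 := min_le_right _ _
    have hqc : 2 * (n : ℝ) / (n - 1) < q := lt_min hp (by linarith)
    obtain ⟨δ1, hδ10, hδ11, h1⟩ := vec_core_tsum (n := n) hn p hp
    obtain ⟨δ2, hδ20, hδ21, h2⟩ := vec_core (n := n) hn q hqc
    refine ⟨min δ1 δ2, lt_min hδ10 hδ20, fun c hc => ?_⟩
    have hc1 : 0 < min c 1 := lt_min hc one_pos
    obtain ⟨C1, hC1, h1a, h1b⟩ := h1 (min c 1) hc1
    obtain ⟨C2, hC2, h2a⟩ := h2 (min c 1) hc1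
    have hg1 : ∀ g : sphere (0 : E n) 1 → ℂ, Gapped c (min δ1 δ2) g → GapsS (min c 1) δ1 g :=
      fun g hg => GapsS.mono (δ' := min δ1 δ2) hg hc (min_le_left _ _)
    have hg2 : ∀ g : sphere (0 : E n) 1 → ℂ, Gapped c (min δ1 δ2) g → GapsS (min c 1) δ2 g :=
      fun g hg => GapsS.mono (δ' := min δ1 δ2) hg hc (min_le_right _ _)
    refine ⟨⟨Real.toNNReal (C1 ^ (1 / p)), ?_⟩, ⟨Real.toNNReal (C1 ^ (1 / p)), ?_⟩, ?_⟩
    · intro g hg hgap
      have h3 := h1a {0} (fun _ => g) (fun _ => hg.1) (fun _ _ => hg1 g hgap)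
      have e1 : ∀ a : ℝ≥0∞, (∑ _i ∈ ({0} : Finset ℕ), a ^ (2 : ℝ)) ^ (p / 2) = a ^ p := by
        intro a
        rw [Finset.sum_singleton, ← ENNReal.rpow_mul]
        congr 1
        ring
      simp_rw [e1] at h3
      have hnorm : eLpNorm (ft g) (ENNReal.ofReal p) volume ≤
          (Real.toNNReal (C1 ^ (1 / p)) : ℝ≥0∞) * eLpNorm g (ENNReal.ofReal p) (sigma n) := by
        rw [eLpNorm_eq_lintegral_rpow_enorm_toReal hP0 ENNReal.ofReal_ne_top,
          eLpNorm_eq_lintegral_rpow_enorm_toReal hP0 ENNReal.ofReal_ne_top,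
          ENNReal.toReal_ofReal hp0.le]
        calc (∫⁻ ξ : E n, ‖ft g ξ‖ₑ ^ p) ^ (1 / p)
            ≤ (ENNReal.ofReal C1 * ∫⁻ x : sphere (0 : E n) 1, ‖g x‖ₑ ^ p ∂(sigma n)) ^ (1 / p) :=
              ENNReal.rpow_le_rpow h3 (by positivity)
          _ = _ := by
              rw [ENNReal.mul_rpow_of_nonneg _ _ (by positivity),
                ENNReal.ofReal_rpow_of_nonneg hC1.le (by positivity)]
              rfl
      exact ⟨⟨(ftm g hg.1).aestronglyMeasurable, lt_of_le_of_lt hnorm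
        (ENNReal.mul_lt_top ENNReal.coe_lt_top hg.2)⟩, hnorm⟩
    · intro g hg hgap
      have h3 := h1b g (fun i => (hg i).1) (fun i => hg1 (g i) (hgap i))
      calc (∫⁻ ξ : E n, (∑' i, ‖ft (g i) ξ‖ₑ ^ (2 : ℝ)) ^ (p / 2)) ^ (1 / p)
          ≤ (ENNReal.ofReal C1 *
            ∫⁻ x, (∑' i, ‖g i x‖ₑ ^ (2 : ℝ)) ^ (p / 2) ∂(sigma n)) ^ (1 / p) :=
            ENNReal.rpow_le_rpow h3 (by positivity)
        _ = _ := by
            rw [ENNReal.mul_rpow_of_nonneg _ _ (by positivity),
              ENNReal.ofReal_rpow_of_nonneg hC1.le (by positivity)]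
            rfl
    · intro Ω _ P g G hGs hgap hGp
      obtain ⟨_, hgi, X, K, hX, hG⟩ := hGs
      have hc' : Coef P X K := ⟨hX.indep, hX.meas, hX.mem, hX.mean, hX.variance, hX.fourth⟩
      exact rand_gen_all (by linarith) hq4 hqp hc' g hgi (ENNReal.ofReal C2)
        ENNReal.ofReal_ne_top (fun N => h2a (Finset.range N) g (fun i => (hgi i).1)
          (fun i _ => hg2 (g i) (hgap i))) G hG hGp
  -- the passage to all exponents
  have allp : ∀ (Ω : Type u) (_ : MeasurableSpace Ω) (P : Measure Ω)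
      (G : Ω → sphere (0 : E n) 1 → ℂ), (∀ p : ℝ, 2 * (n : ℝ) / (n - 1) < p →
        (∀ᵐ ω ∂P, MemLp (G ω) (ENNReal.ofReal p) (sigma n)) →
        ∀ᵐ ω ∂P, MemLp (ft (G ω)) (ENNReal.ofReal p) volume) →
      (∀ᵐ ω ∂P, MemLp (G ω) ∞ (sigma n)) →
      ∀ᵐ ω ∂P, ∀ p : ℝ, 2 * (n : ℝ) / (n - 1) < p →
        MemLp (ft (G ω)) (ENNReal.ofReal p) volume := by
    intro Ω _ P G key hb
    have hall : ∀ᵐ ω ∂P, ∀ j : ℕ,
        MemLp (ft (G ω)) (ENNReal.ofReal (2 * (n : ℝ) / (n - 1) + 1 / ((j : ℝ) + 1))) volume := by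
      rw [ae_all_iff]
      intro j
      refine key _ (by
        have : (0 : ℝ) < 1 / ((j : ℝ) + 1) := by positivity
        linarith) ?_
      filter_upwards [hb] with ω hω
      exact hω.mono_exponent le_top
    filter_upwards [hall, hb] with ω hω hbω
    intro p hp
    obtain ⟨j, hj⟩ := exists_nat_one_div_lt (sub_pos.2 hp)
    have hq0 : 0 < 2 * (n : ℝ) / (n - 1) + 1 / ((j : ℝ) + 1) := by positivity
    have h5 := (hω j).2
    rw [eLpNorm_lt_top_iff_lintegral_rpow_enorm_lt_top (ENNReal.ofReal_pos.2 hq0).ne'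
      ENNReal.ofReal_ne_top, ENNReal.toReal_ofReal hq0.le] at h5
    have h6 : MemLp (G ω) 1 (sigma n) := hbω.mono_exponent le_top
    exact ft_up (G ω) hbω.1 (memLp_one_iff_integrable.1 h6).2.ne hq0 (by linarith) h5
  have hsph : ∀ p : ℝ, 2 * (n : ℝ) / (n - 1) < p →
      AlmostSure.{u} n p (fun g => ∀ i, SphericalHarmonic (g i)) := by
    intro p hp Ω _ P Y G hGs hY hgp
    obtain ⟨_, -, X, K, hX, hG⟩ := hGs
    choose k Q hQ1 hQ2 hQ3 using hY
    have hc' : Coef P X K := ⟨hX.indep, hX.meas, hX.mem, hX.mean, hX.variance, hX.fourth⟩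
    have hY' : ∀ i, Y i = fun x : sphere (0 : E n) 1 => ev (Q i) (x : E n) :=
      fun i => funext fun x => hQ3 i x
    simp_rw [hY'] at hG
    exact rand_all hn p hp hc' k Q hQ1 hQ2 G hG hgp
  refine ⟨main, ?_, hsph, ?_⟩
  · intro Ω _ P g G hGs hgap
    refine allp Ω _ P G fun p hp hGp => ?_
    obtain ⟨δ, hδ, h⟩ := main p hp
    obtain ⟨c, hc, hcg⟩ := hgap δ hδ
    exact (h c hc).2.2 Ω _ P g G hGs hcg hGp
  · intro Ω _ P Y G hGs hY
    exact allp Ω _ P G fun p hp hGp => hsph p hp Ω _ P Y G hGs hY hGp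

end Pool.Agent.Results.MP_6cbfb8_an.GapSeries
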