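import Mathlib
import Pool.Agent.W203.SP.Final
import Pool.Agent.W5h47.Iso.AvgI
set_option autoImplicit false

/-!
# Stein's restriction conjecture on `S²`: isotropic dilations of an arbitrary bounded density

Let `f` be a bounded Borel function on the plane. For `0 < l < 1` let `dil l f` be the density on
the unit sphere of `ℝ³` which is `f(x₁/l, x₂/l)` at the points `x` with `x₃ > 0` and
`x₁² + x₂² < l²`, and `0` elsewhere. Only one real parameter varies.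

1. For `q > 3` and `0 < a`, `b < 1` the average over `l ∈ [a,b]` of `‖(dil l f dσ)^‖_q^q` is at
   most `C ‖f‖_∞^q`, with `C` independent of `f`.
2. For `q > 3` the set of `l ∈ (0,1)` for which the Fourier transform of `(dil l f) dσ` is not in
   `L^q(ℝ³)` has Hausdorff dimension at most `max 0 ((4-q)/(q-2))`, which is less than `1`.
3. For almost every `l ∈ (0,1)` it is in `L^q(ℝ³)` for all `q > 3`.
-/

namespace Pool.Agent.Results.MP_6cbfb8_an.IsotropicDilations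

open MeasureTheory Set Metric Complex Filter
open scoped ENNReal NNReal RealInnerProductSpace Topology

/-- The Fourier transform of the measure `g dσ`, where `σ` is the surface measure of the unit
sphere of `ℝ³`: `ξ ↦ ∫ exp(-2πi x·ξ) g(x) dσ(x)`. -/
noncomputable def FT (g : EuclideanSpace ℝ (Fin 3) → ℂ) (ξ : EuclideanSpace ℝ (Fin 3)) : ℂ :=
  ∫ x : sphere (0 : EuclideanSpace ℝ (Fin 3)) 1,
    cexp (-(2 * Real.pi * I) * ((⟪(x : EuclideanSpace ℝ (Fin 3)), ξ⟫ : ℝ) : ℂ)) * g x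
      ∂(volume : Measure (EuclideanSpace ℝ (Fin 3))).toSphere

/-- The dilated density: `f(x₁/l, x₂/l)` if `x₃ > 0` and `x₁² + x₂² < l²`, and `0` otherwise. -/
noncomputable def dil (l : ℝ) (f : EuclideanSpace ℝ (Fin 2) → ℂ)
    (x : EuclideanSpace ℝ (Fin 3)) : ℂ :=
  if 0 < x 2 ∧ x 0 ^ 2 + x 1 ^ 2 < l ^ 2 then f !₂[x 0 / l, x 1 / l] else 0

open Pool.Agent.W203.SP (dens FD ee sg fb NQ DS)
open Pool.Agent.W5h47.Iso (su exc_u avg_u int1)

lemma dil_eq {l : ℝ} (hl : 0 < l) (f : EuclideanSpace ℝ (Fin 2) → ℂ) :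
    dil l f = dens (k := 2) (fun _ => l) f := by
  funext x
  unfold dil dens
  have h1 : (fun j : Fin 2 => x j.castSucc / l) = ![x 0 / l, x 1 / l] := by
    funext j
    fin_cases j <;> rfl
  have h2 : ∑ j : Fin 2, (x j.castSucc / l) ^ 2 = (x 0 ^ 2 + x 1 ^ 2) / l ^ 2 := by
    rw [Fin.sum_univ_two, add_div, ← div_pow, ← div_pow]
    rfl
  have h3 : (x 0 ^ 2 + x 1 ^ 2 < l ^ 2) ↔ ∑ j : Fin 2, (x j.castSucc / l) ^ 2 < 1 := by
    rw [h2, div_lt_one (by positivity)]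
  have h4 : x (Fin.last 2) = x 2 := rfl
  simp only [h3, h1, h4]

lemma FT_eq {l : ℝ} (hl : 0 < l) (f : EuclideanSpace ℝ (Fin 2) → ℂ) :
    FT (dil l f) = FD (k := 2) (fun _ => l) f := by
  ext ξ
  have hs : MeasurableSet (sphere (0 : EuclideanSpace ℝ (Fin (2 + 1))) 1) :=
    isClosed_sphere.measurableSet
  unfold FT FD sg
  rw [(MeasurableEmbedding.subtype_coe hs).integral_map]
  apply integral_congr_ae
  refine ae_of_all _ fun x => ?_
  simp only [dil_eq hl]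
  unfold ee
  congr 2
  push_cast
  ring

lemma fb_DS {f : EuclideanSpace ℝ (Fin 2) → ℂ} (hf : Measurable f) {M : ℝ}
    (hM : ∀ z, ‖f z‖ ≤ M) : DS M (fb f) := by
  refine ⟨hf.indicator measurableSet_ball, fun z => ?_, fun z hz => ?_⟩
  · unfold fb
    by_cases h : z ∈ ball (0 : EuclideanSpace ℝ (Fin 2)) 1
    · rw [indicator_of_mem h]
      exact hM z
    · rw [indicator_of_notMem h, norm_zero]
      exact (norm_nonneg _).trans (hM z)
  · unfold fb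
    rw [indicator_of_notMem]
    rw [mem_ball_zero_iff]
    linarith

lemma FT_int {l : ℝ} (hl0 : 0 < l) (hl1 : l < 1) {f : EuclideanSpace ℝ (Fin 2) → ℂ}
    (hf : Measurable f) {q : ℝ} (hq : 0 ≤ q) :
    ∫⁻ ξ, ‖FT (dil l f) ξ‖ₑ ^ q = ENNReal.ofReal ((l * l) ^ q) * ENNReal.ofReal ((l * l)⁻¹) *
      NQ 1 q univ (su (l ^ 2)) (fb f) := by
  rw [FT_eq hl0]
  have h := Pool.Agent.W203.SP.a_FDL 2 (fun _ => l) (fun _ => ⟨hl0, hl1⟩) f hf q hq
  rw [Fin.prod_univ_two] at h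
  exact h

/-- the averaged estimate -/
lemma averaged {q a b : ℝ} (hq : 3 < q) (ha : 0 < a) (hb : b < 1) :
    ∃ C : ℝ≥0, ∀ (M : ℝ) (f : EuclideanSpace ℝ (Fin 2) → ℂ), Measurable f → (∀ z, ‖f z‖ ≤ M) →
      ∫⁻ l in Icc a b, ∫⁻ ξ, ‖FT (dil l f) ξ‖ₑ ^ q ≤ C * ENNReal.ofReal (M ^ q) := by
  rcases lt_or_ge b a with hab | hab
  · refine ⟨0, fun M f _ _ => ?_⟩
    rw [Icc_eq_empty (not_le.2 hab)]
    simp
  have hb0 : 0 < b := by linarith
  obtain ⟨C, hC, h⟩ := avg_u 1 (q := q) (a := a ^ 2) (b := b ^ 2) (by positivity) (by nlinarith)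
    (by nlinarith) hq
  set K : ℝ≥0∞ := ENNReal.ofReal ((a * a)⁻¹) * (ENNReal.ofReal (((2 * a) ^ 1)⁻¹) * C) with hK
  have hKt : K ≠ ⊤ := ENNReal.mul_ne_top ENNReal.ofReal_ne_top
    (ENNReal.mul_ne_top ENNReal.ofReal_ne_top hC.ne)
  refine ⟨K.toNNReal, fun M f hf hM => ?_⟩
  rw [ENNReal.coe_toNNReal hKt]
  have hDS := fb_DS hf hM
  have hpt : ∀ l ∈ Icc a b, ∫⁻ ξ, ‖FT (dil l f) ξ‖ₑ ^ q ≤
      ENNReal.ofReal ((a * a)⁻¹) * NQ 1 q univ (su (l ^ 2)) (fb f) := by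
    intro l hl
    have hl0 : 0 < l := lt_of_lt_of_le ha hl.1
    have hl1 : l < 1 := lt_of_le_of_lt hl.2 hb
    rw [FT_int hl0 hl1 hf (by linarith)]
    refine mul_le_mul' ?_ le_rfl
    have h1 : ENNReal.ofReal ((l * l) ^ q) ≤ 1 := by
      rw [← ENNReal.ofReal_one]
      apply ENNReal.ofReal_le_ofReal
      apply Real.rpow_le_one (by positivity) (by nlinarith) (by linarith)
    have h2 : ENNReal.ofReal ((l * l)⁻¹) ≤ ENNReal.ofReal ((a * a)⁻¹) := by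
      apply ENNReal.ofReal_le_ofReal
      apply inv_anti₀ (by positivity)
      have := hl.1
      nlinarith
    calc ENNReal.ofReal ((l * l) ^ q) * ENNReal.ofReal ((l * l)⁻¹) ≤
          1 * ENNReal.ofReal ((a * a)⁻¹) := mul_le_mul' h1 h2
      _ = _ := one_mul _
  refine (setLIntegral_mono' measurableSet_Icc hpt).trans ?_
  rw [lintegral_const_mul' _ _ ENNReal.ofReal_ne_top, hK, mul_assoc, mul_assoc]
  refine mul_le_mul' le_rfl ?_
  have hme : Measurable fun s : Fin 1 → ℝ => NQ 1 q univ (su (s 0)) (fb f) :=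
    (Pool.Agent.W5h47.Iso.NQ_mu 1 q univ hDS.meas).comp (measurable_pi_apply 0)
  have hs := Pool.Agent.W334.SP.t_SUBST 1 a b ha hab
    (fun s : Fin 1 → ℝ => NQ 1 q univ (su (s 0)) (fb f)) hme
  rw [int1 (fun l => NQ 1 q univ (su (l ^ 2)) (fb f)),
    int1 (fun u => NQ 1 q univ (su u) (fb f))] at hs
  exact hs.trans (mul_le_mul' le_rfl (h M (fb f) hDS))

lemma sqrt_lip {x : ℝ} (hx : 0 < x) :
    ∃ C : ℝ≥0, ∃ t ∈ 𝓝 x, LipschitzOnWith C Real.sqrt t := by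
  refine ⟨(1 / Real.sqrt (x / 2)).toNNReal, Ioi (x / 2), Ioi_mem_nhds (by linarith), ?_⟩
  apply LipschitzOnWith.of_dist_le_mul
  intro u hu v hv
  have hu1 : x / 2 < u := hu
  have hv1 : x / 2 < v := hv
  have hsc : 0 < Real.sqrt (x / 2) := Real.sqrt_pos.2 (by linarith)
  rw [Real.coe_toNNReal _ (by positivity), Real.dist_eq, Real.dist_eq]
  have h4 : Real.sqrt (x / 2) ≤ Real.sqrt u + Real.sqrt v := by
    have := Real.sqrt_le_sqrt hu1.le
    have := Real.sqrt_nonneg v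
    linarith
  have h5 : |Real.sqrt u - Real.sqrt v| * (Real.sqrt u + Real.sqrt v) = |u - v| := by
    have h6 : u - v = (Real.sqrt u - Real.sqrt v) * (Real.sqrt u + Real.sqrt v) := by
      have h7 := Real.mul_self_sqrt (by linarith : 0 ≤ u)
      have h8 := Real.mul_self_sqrt (by linarith : 0 ≤ v)
      linarith
    rw [h6, abs_mul, abs_of_nonneg (a := Real.sqrt u + Real.sqrt v) (by positivity)]
  have h9 : |Real.sqrt u - Real.sqrt v| * Real.sqrt (x / 2) ≤ |u - v| := by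
    rw [← h5]
    exact mul_le_mul_of_nonneg_left h4 (abs_nonneg _)
  rw [one_div_mul_eq_div, le_div_iff₀ hsc]
  exact h9

lemma FT_mem {l : ℝ} (hl0 : 0 < l) {f : EuclideanSpace ℝ (Fin 2) → ℂ} (hf : Measurable f)
    {q : ℝ} (hq : 0 < q) (h : ∫⁻ ξ, ‖FT (dil l f) ξ‖ₑ ^ q < ⊤) :
    MemLp (FT (dil l f)) (ENNReal.ofReal q) volume := by
  rw [FT_eq hl0] at h ⊢
  exact Pool.Agent.W203.SP.FD_memLp _ hf hq h

lemma FT_mem_iff {l : ℝ} {f : EuclideanSpace ℝ (Fin 2) → ℂ} {q : ℝ} (hq : 0 < q)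
    (h : MemLp (FT (dil l f)) (ENNReal.ofReal q) volume) :
    ∫⁻ ξ, ‖FT (dil l f) ξ‖ₑ ^ q < ⊤ := by
  have h1 := h.2
  rw [eLpNorm_lt_top_iff_lintegral_rpow_enorm_lt_top (ENNReal.ofReal_pos.2 hq).ne'
    ENNReal.ofReal_ne_top, ENNReal.toReal_ofReal hq.le] at h1
  exact h1

/-- larger exponents -/
lemma mem_mono {l : ℝ} (hl0 : 0 < l) {f : EuclideanSpace ℝ (Fin 2) → ℂ} (hf : Measurable f)
    {M : ℝ} (hM : ∀ z, ‖f z‖ ≤ M) {p q : ℝ} (hp : 0 < p) (hpq : p ≤ q)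
    (h : MemLp (FT (dil l f)) (ENNReal.ofReal p) volume) :
    MemLp (FT (dil l f)) (ENNReal.ofReal q) volume := by
  have h1 := FT_mem_iff hp h
  apply FT_mem hl0 hf (by linarith)
  rw [FT_eq hl0] at h1 ⊢
  exact Pool.Agent.W203.SP.FD_mono _ hM hp.le hpq h1

lemma dim_low {f : EuclideanSpace ℝ (Fin 2) → ℂ} (hf : Measurable f) {M : ℝ}
    (hM : ∀ z, ‖f z‖ ≤ M) {q : ℝ} (hq2 : 2 < q) (hq4 : q ≤ 4) :
    dimH {l : ℝ | 0 < l ∧ l < 1 ∧ ¬ MemLp (FT (dil l f)) (ENNReal.ofReal q) volume} ≤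
      ENNReal.ofReal ((4 - q) / (q - 2)) := by
  have hq0 : 0 < q := by linarith
  have hmain := exc_u 1 hq2 hq4 (fb_DS hf hM)
  set E' : Set ℝ := {u : ℝ | 0 < u ∧ u < 1 ∧ NQ 1 q univ (su u) (fb f) = ⊤} with hE
  have hsub : {l : ℝ | 0 < l ∧ l < 1 ∧ ¬ MemLp (FT (dil l f)) (ENNReal.ofReal q) volume} ⊆
      Real.sqrt '' E' := by
    rintro l ⟨h1, h2, hn⟩
    refine ⟨l ^ 2, ⟨by positivity, by nlinarith, ?_⟩, Real.sqrt_sq h1.le⟩
    by_contra hcon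
    apply hn
    apply FT_mem h1 hf hq0
    rw [FT_int h1 h2 hf hq0.le]
    exact ENNReal.mul_lt_top (ENNReal.mul_lt_top ENNReal.ofReal_lt_top ENNReal.ofReal_lt_top)
      (lt_top_iff_ne_top.2 hcon)
  refine (dimH_mono hsub).trans ((dimH_image_le_of_locally_lipschitzOn ?_).trans hmain)
  rintro s ⟨hs, -, -⟩
  obtain ⟨C, t, ht, hlip⟩ := sqrt_lip hs
  exact ⟨C, t, mem_nhdsWithin_of_mem_nhds ht, hlip⟩

lemma dim_all {f : EuclideanSpace ℝ (Fin 2) → ℂ} (hf : Measurable f) {M : ℝ}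
    (hM : ∀ z, ‖f z‖ ≤ M) {q : ℝ} (hq : 3 < q) :
    dimH {l : ℝ | 0 < l ∧ l < 1 ∧ ¬ MemLp (FT (dil l f)) (ENNReal.ofReal q) volume} ≤
      ENNReal.ofReal ((4 - q) / (q - 2)) := by
  rcases le_or_gt q 4 with h4 | h4
  · exact dim_low hf hM (by linarith) h4
  · have h1 := dim_low hf hM (q := 4) (by norm_num) le_rfl
    have h2 : ((4:ℝ) - 4) / (4 - 2) = 0 := by norm_num
    rw [h2, ENNReal.ofReal_zero] at h1
    refine ((dimH_mono ?_).trans h1).trans zero_le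
    rintro l ⟨k1, k2, k3⟩
    exact ⟨k1, k2, fun hc => k3 (mem_mono k1 hf hM (by norm_num) h4.le hc)⟩

lemma exp_lt {q : ℝ} (hq : 3 < q) : (4 - q) / (q - 2) < 1 := by
  rw [div_lt_one (by linarith)]
  linarith

lemma null {f : EuclideanSpace ℝ (Fin 2) → ℂ} (hf : Measurable f) {M : ℝ}
    (hM : ∀ z, ‖f z‖ ≤ M) {q : ℝ} (hq : 3 < q) :
    volume {l : ℝ | 0 < l ∧ l < 1 ∧ ¬ MemLp (FT (dil l f)) (ENNReal.ofReal q) volume} = 0 := by
  have h1 := dim_all hf hM hq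
  rw [← hausdorffMeasure_real]
  have h2 : ENNReal.ofReal ((4 - q) / (q - 2)) < ((1 : ℝ≥0) : ℝ≥0∞) := by
    rw [ENNReal.coe_one, ← ENNReal.ofReal_one]
    exact (ENNReal.ofReal_lt_ofReal_iff one_pos).2 (exp_lt hq)
  have h3 := hausdorffMeasure_of_dimH_lt (lt_of_le_of_lt h1 h2)
  simpa using h3

theorem result :
    (∀ q a b : ℝ, 3 < q → 0 < a → b < 1 → ∃ C : ℝ≥0,
      ∀ (M : ℝ) (f : EuclideanSpace ℝ (Fin 2) → ℂ), Measurable f → (∀ z, ‖f z‖ ≤ M) →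
        ∫⁻ l in Icc a b, ∫⁻ ξ, ‖FT (dil l f) ξ‖ₑ ^ q ≤ C * ENNReal.ofReal (M ^ q)) ∧
    ∀ (M : ℝ) (f : EuclideanSpace ℝ (Fin 2) → ℂ), Measurable f → (∀ z, ‖f z‖ ≤ M) →
      (∀ q : ℝ, 3 < q →
        dimH {l : ℝ | 0 < l ∧ l < 1 ∧ ¬ MemLp (FT (dil l f)) (ENNReal.ofReal q) volume} ≤
          ENNReal.ofReal ((4 - q) / (q - 2)) ∧ (4 - q) / (q - 2) < 1) ∧
      ∀ᵐ l : ℝ, 0 < l → l < 1 → ∀ q : ℝ, 3 < q →
        MemLp (FT (dil l f)) (ENNReal.ofReal q) volume := by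
  refine ⟨fun q a b hq ha hb => averaged hq ha hb, fun M f hf hM => ⟨fun q hq =>
    ⟨dim_all hf hM hq, exp_lt hq⟩, ?_⟩⟩
  have h1 : ∀ n : ℕ, ∀ᵐ l : ℝ, ¬ (0 < l ∧ l < 1 ∧
      ¬ MemLp (FT (dil l f)) (ENNReal.ofReal (3 + 1 / ((n : ℝ) + 1))) volume) := by
    intro n
    have hn : (0:ℝ) < 1 / ((n : ℝ) + 1) := by positivity
    have h2 := null hf hM (q := 3 + 1 / ((n : ℝ) + 1)) (by linarith)
    rw [ae_iff]
    simpa using h2
  filter_upwards [ae_all_iff.2 h1] with l hl h0 h1 q hq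
  obtain ⟨n, hn⟩ := exists_nat_gt (1 / (q - 3))
  have hq3 : 0 < q - 3 := by linarith
  have h2 : MemLp (FT (dil l f)) (ENNReal.ofReal (3 + 1 / ((n : ℝ) + 1))) volume := by
    by_contra hc
    exact hl n ⟨h0, h1, hc⟩
  refine mem_mono h0 hf hM (by positivity) ?_ h2
  have h3 : 1 / ((n : ℝ) + 1) ≤ q - 3 := by
    rw [div_lt_iff₀ hq3] at hn
    rw [div_le_iff₀ (by positivity)]
    nlinarith
  linarith

end Pool.Agent.Results.MP_6cbfb8_an.IsotropicDilations
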