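import Mathlib
import Pool.Agent.W5h48.RS.S1
import Pool.Agent.H789R2.FR.Caps
set_option autoImplicit false

/-!
# Stein's restriction conjecture for random signs

Let `g` be an arbitrary bounded measurable density on the unit sphere of `ℝ^n`, `n ≥ 2`. For
`κ > 0` let `av κ h` be the average of `h` over the von Mises-Fisher probability density
`x ↦ c_κ e^{κ⟨x, y⟩}` (an average over a cap of radius `κ^{-1/2}`), and let
`part m g = av 4^(m+1) g - av 4^m g` be the part of `g` at scale `2^{-m}`. Then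

`ft g = ft (av 1 (av 1 g)) + ∑_m ft (av 4^(m+1) (part m g) + av 4^m (part m g))`.

We change the signs of the parts at random: the sphere is cut, for every `m`, into finitely many
measurable cells of surface measure at most `A 2^{-m(n-1)}` (the measure of a cap of radius
`2^{-m}`), and `part m g` is multiplied on each cell by a random number from `[-1, 1]` of mean zero,
independently for different cells of the same scale.

* The resulting random series converges absolutely at every frequency and is bounded by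
  `L (1 + log(1+|ξ|))^{3/2} (1+|ξ|)^{-(n-1)/2}` for all `ξ` simultaneously, with probability at
  least `1 - exp(-L²/C)`; `C` depends on `n` and `A` only. Almost surely it is in `L^p(ℝ^n)` for
  every `p > 2n/(n-1)`, the full range of Stein's conjecture.
* Whenever the modified parts have summable sup norms (for instance if the random multipliers of
  the scale `m` are bounded by `α_m` with `∑ α_m < ∞`, or if the parts of `g` have summable sup
  norms), the modified series is the Fourier transform of a bounded density, which almost surely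
  satisfies the conclusion of Stein's conjecture.
* For all `g` and all cells there are signs `±1` for which the estimate holds.

`exists_cells` shows that such partitions into cells exist.
-/

namespace Pool.Agent.Results.MP_6cbfb8_an.RandomSigns

open MeasureTheory Measure ProbabilityTheory Set Metric Complex Filter Topology
open Pool.Agent.H789R2.FR (E sg T D A sg_finite sg_ae A_meas A_bound D_pos exp_inner_eq cap_upper)
open Pool.Agent.W5h48.RS
open scoped ENNReal RealInnerProductSpace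

/-- surface measure on the unit sphere -/
noncomputable def sigma (n : ℕ) : Measure (sphere (0 : E n) 1) := (volume : Measure (E n)).toSphere

/-- the Fourier transform of the measure `g dσ` -/
noncomputable def ft {n : ℕ} (g : sphere (0 : E n) 1 → ℂ) (ξ : E n) : ℂ :=
  ∫ x, Complex.exp (-(2 * Real.pi * ⟪(x : E n), ξ⟫ : ℝ) * I) * g x ∂(sigma n)

/-- the average of `g` over the von Mises-Fisher probability density with concentration `κ` and
centre `x` -/
noncomputable def av {n : ℕ} (κ : ℝ) (g : sphere (0 : E n) 1 → ℂ) (x : sphere (0 : E n) 1) : ℂ :=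
  (∫ y, ((Real.exp (κ * ⟪(x : E n), (y : E n)⟫) : ℝ) : ℂ) * g y ∂(sigma n)) /
    ((∫ y, Real.exp (κ * ⟪(x : E n), (y : E n)⟫) ∂(sigma n) : ℝ) : ℂ)

/-- the smooth part of `g` -/
noncomputable def base {n : ℕ} (g : sphere (0 : E n) 1 → ℂ) : sphere (0 : E n) 1 → ℂ :=
  av 1 (av 1 g)

/-- the part of `g` at scale `2^{-m}` -/
noncomputable def part {n : ℕ} (m : ℕ) (g : sphere (0 : E n) 1 → ℂ) : sphere (0 : E n) 1 → ℂ :=
  fun x => av (4 ^ (m + 1)) g x - av (4 ^ m) g x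

/-- the term number `m`, after multiplication of the part of `g` at scale `2^{-m}` by `θ` -/
noncomputable def term {n : ℕ} (m : ℕ) (g : sphere (0 : E n) 1 → ℂ)
    (θ : sphere (0 : E n) 1 → ℝ) : sphere (0 : E n) 1 → ℂ :=
  fun x => av (4 ^ (m + 1)) (fun y => (θ y : ℂ) * part m g y) x +
    av (4 ^ m) (fun y => (θ y : ℂ) * part m g y) x

/-- A partition of the sphere into cells, at each scale `2^{-m}`: the cell of the point `x` is
`q m x`, and a cell has surface measure at most `A 2^{-m(n-1)}`. -/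
structure Cells (n : ℕ) (A : ℝ) where
  /-- number of cells -/
  N : ℕ → ℕ
  /-- the cell of a point -/
  q : ∀ m, sphere (0 : E n) 1 → Fin (N m)
  q_meas : ∀ m, Measurable (q m)
  small : ∀ m i, (sigma n).real {x | q m x = i} ≤ A / 2 ^ (m * (n - 1))

/-- Random multipliers, one for each cell: mean zero, bounded by one, and independent for the
different cells of the same scale. Nothing is assumed about different scales. -/
structure Signs {n : ℕ} {A : ℝ} (Q : Cells n A) {Ω : Type*} [MeasurableSpace Ω]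
    (P : Measure Ω) where
  /-- the multiplier of a cell -/
  ε : ∀ m, Fin (Q.N m) → Ω → ℝ
  ε_meas : ∀ m i, Measurable (ε m i)
  ε_le : ∀ m i ω, |ε m i ω| ≤ 1
  ε_mean : ∀ m i, ∫ ω, ε m i ω ∂P = 0
  ε_indep : ∀ m, iIndepFun (ε m) P

/-- the random multiplier at scale `2^{-m}` as a function on the sphere -/
def Signs.mult {n : ℕ} {A : ℝ} {Q : Cells n A} {Ω : Type*} [MeasurableSpace Ω]
    {P : Measure Ω} (X : Signs Q P) (ω : Ω) (m : ℕ) (x : sphere (0 : E n) 1) : ℝ :=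
  X.ε m (Q.q m x) ω

/-- For the multipliers `θ` the series of the terms converges absolutely, with the bound
`L (1 + log(1+|ξ|))^{3/2} (1+|ξ|)^{-(n-1)/2}` for all `ξ`. -/
def Bound {n : ℕ} (g : sphere (0 : E n) 1 → ℂ) (θ : ℕ → sphere (0 : E n) 1 → ℝ) (L : ℝ) : Prop :=
  ∀ ξ, Summable (fun m => ‖ft (term m g (θ m)) ξ‖) ∧ ∑' m, ‖ft (term m g (θ m)) ξ‖ ≤
    L * (1 + Real.log (1 + ‖ξ‖)) ^ (3 / 2 : ℝ) * (1 + ‖ξ‖) ^ (-(((n : ℝ) - 1) / 2))

/-- the modified density -/
noncomputable def modified {n : ℕ} (g : sphere (0 : E n) 1 → ℂ)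
    (θ : ℕ → sphere (0 : E n) 1 → ℝ) : sphere (0 : E n) 1 → ℂ :=
  fun x => base g x + ∑' m, term m g (θ m) x

/-- the modified Fourier transform -/
noncomputable def modifiedFt {n : ℕ} (g : sphere (0 : E n) 1 → ℂ)
    (θ : ℕ → sphere (0 : E n) 1 → ℝ) (ξ : E n) : ℂ :=
  ft (base g) ξ + ∑' m, ft (term m g (θ m)) ξ

/-! ### Proofs -/

theorem ft_eq {n : ℕ} (g : sphere (0 : E n) 1 → ℂ) (ξ : E n) :
    ft g ξ = T (ex g) ((2 * Real.pi) • ξ) := by
  unfold T ft
  rw [int_sg]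
  apply integral_congr_ae
  filter_upwards with x
  rw [ex_apply, real_inner_smul_left, real_inner_comm]

theorem av_eq {n : ℕ} (κ : ℝ) (g : sphere (0 : E n) 1 → ℂ) (x : sphere (0 : E n) 1) :
    av κ g x = A κ (ex g) x := by
  unfold av A D
  have h1 : ∫ w, ((Real.exp (-(κ / 2) * ‖(x : E n) - w‖ ^ 2) : ℝ) : ℂ) * ex g w ∂(sg n) =
      ((Real.exp (-κ) : ℝ) : ℂ) *
        ∫ y, ((Real.exp (κ * ⟪(x : E n), (y : E n)⟫) : ℝ) : ℂ) * g y ∂(sigma n) := by
    rw [int_sg, ← integral_const_mul]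
    apply integral_congr_ae
    filter_upwards with y
    rw [ex_apply, exp_inner_eq κ (x : E n) y (Sp_norm x) (Sp_norm y)]
    push_cast
    ring
  have h2 : ∫ w, Real.exp (-(κ / 2) * ‖(x : E n) - w‖ ^ 2) ∂(sg n) =
      Real.exp (-κ) * ∫ y, Real.exp (κ * ⟪(x : E n), (y : E n)⟫) ∂(sigma n) := by
    rw [int_sg, ← integral_const_mul]
    apply integral_congr_ae
    filter_upwards with y
    rw [exp_inner_eq κ (x : E n) y (Sp_norm x) (Sp_norm y)]
  have h3 : ((Real.exp (-κ) : ℝ) : ℂ) ≠ 0 := by exact_mod_cast (Real.exp_pos _).ne'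
  rw [h1, h2, Complex.ofReal_mul, mul_div_mul_left _ _ h3]

theorem base_eq {n : ℕ} (g : sphere (0 : E n) 1 → ℂ) (x : sphere (0 : E n) 1) :
    base g x = A 1 (A 1 (ex g)) x := by
  unfold base
  rw [av_eq, A_congr (ex_congr (G := A 1 (ex g)) fun y => av_eq 1 g y)]

theorem part_eq {n : ℕ} (m : ℕ) (g : sphere (0 : E n) 1 → ℂ) (x : sphere (0 : E n) 1) :
    part m g x = Pool.Agent.W5h48.RS.Part m (ex g) x := by
  unfold part Pool.Agent.W5h48.RS.Part
  rw [av_eq, av_eq]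

theorem term_eq {n : ℕ} (m : ℕ) (g : sphere (0 : E n) 1 → ℂ) (θ : sphere (0 : E n) 1 → ℝ)
    (Θ : E n → ℂ) (hΘ : ∀ y : sphere (0 : E n) 1, (θ y : ℂ) = Θ y) (x : sphere (0 : E n) 1) :
    term m g θ x = Term m (ex g) Θ x := by
  unfold term Term
  rw [av_eq, av_eq, A_congr (ex_congr (G := fun w => Θ w * Pool.Agent.W5h48.RS.Part m (ex g) w) fun y => ?_),
    A_congr (ex_congr (G := fun w => Θ w * Pool.Agent.W5h48.RS.Part m (ex g) w) fun y => ?_)]
  · rw [hΘ, part_eq]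
  · rw [hΘ, part_eq]

theorem ft_of_eq {n : ℕ} {g : sphere (0 : E n) 1 → ℂ} {G : E n → ℂ}
    (H : ∀ x : sphere (0 : E n) 1, g x = G x) (ξ : E n) : ft g ξ = T G ((2 * Real.pi) • ξ) := by
  rw [ft_eq]
  exact T_congr (ex_congr H) _

theorem av_meas {n : ℕ} (κ : ℝ) {g : sphere (0 : E n) 1 → ℂ} (hg : Measurable g) :
    Measurable (av κ g) := by
  have : av κ g = fun x : sphere (0 : E n) 1 => A κ (ex g) x := funext fun x => av_eq κ g x
  rw [this]
  exact (A_meas κ (ex_meas hg)).comp measurable_subtype_coe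

theorem part_meas {n : ℕ} (m : ℕ) {g : sphere (0 : E n) 1 → ℂ} (hg : Measurable g) :
    Measurable (part m g) := (av_meas _ hg).sub (av_meas _ hg)

theorem term_meas {n : ℕ} (m : ℕ) {g : sphere (0 : E n) 1 → ℂ} (hg : Measurable g)
    {θ : sphere (0 : E n) 1 → ℝ} (hθ : Measurable θ) : Measurable (term m g θ) := by
  have h : Measurable (fun y => (θ y : ℂ) * part m g y) :=
    (Complex.measurable_ofReal.comp hθ).mul (part_meas m hg)
  exact (av_meas _ h).add (av_meas _ h)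

theorem av_bound {n : ℕ} {κ : ℝ} (hκ : 0 ≤ κ) {g : sphere (0 : E n) 1 → ℂ} {M : ℝ} (hM0 : 0 ≤ M)
    (hM : ∀ x, ‖g x‖ ≤ M) (x : sphere (0 : E n) 1) : ‖av κ g x‖ ≤ M := by
  rw [av_eq]
  exact A_bound κ hκ (ex_bound hM0 hM) x

theorem term_bound {n : ℕ} (m : ℕ) {g : sphere (0 : E n) 1 → ℂ}
    {θ : sphere (0 : E n) 1 → ℝ} {c : ℝ} (hc0 : 0 ≤ c) (hc : ∀ x, ‖(θ x : ℂ) * part m g x‖ ≤ c)
    (x : sphere (0 : E n) 1) : ‖term m g θ x‖ ≤ 2 * c := by
  unfold term
  have h1 := av_bound (κ := 4 ^ (m + 1)) (by positivity) hc0 hc x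
  have h2 := av_bound (κ := 4 ^ m) (by positivity) hc0 hc x
  calc _ ≤ _ := norm_add_le _ _
    _ ≤ 2 * c := by linarith

theorem exp_meas {n : ℕ} (ξ : E n) : Measurable (fun x : sphere (0 : E n) 1 =>
    Complex.exp (-(2 * Real.pi * ⟪(x : E n), ξ⟫ : ℝ) * I)) := by
  apply Continuous.measurable
  fun_prop

theorem exp_norm {n : ℕ} (ξ : E n) (x : sphere (0 : E n) 1) :
    ‖Complex.exp (-(2 * Real.pi * ⟪(x : E n), ξ⟫ : ℝ) * I)‖ = 1 := by
  have : (-(2 * Real.pi * ⟪(x : E n), ξ⟫ : ℝ) * I : ℂ) =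
      ((-(2 * Real.pi * ⟪(x : E n), ξ⟫) : ℝ) : ℂ) * I := by push_cast; ring
  rw [this, Complex.norm_exp_ofReal_mul_I]

theorem ft_meas {n : ℕ} {g : sphere (0 : E n) 1 → ℂ} (hg : Measurable g) :
    Measurable (ft g) := by
  have : ft g = fun ξ => T (ex g) ((2 * Real.pi) • ξ) := funext fun ξ => ft_eq g ξ
  rw [this]
  exact (Pool.Agent.H789R2.FR.T_meas (ex_meas hg)).comp (measurable_const_smul _)

/-- passage from `2πξ` to `ξ` -/
theorem weight (n : ℕ) (hn : 2 ≤ n) (ξ : E n) :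
    (1 + Real.log (1 + ‖(2 * Real.pi) • ξ‖)) ^ (3 / 2 : ℝ) *
      (1 + ‖(2 * Real.pi) • ξ‖) ^ (-(((n : ℝ) - 1) / 2)) ≤
    3 ^ (3 / 2 : ℝ) * ((1 + Real.log (1 + ‖ξ‖)) ^ (3 / 2 : ℝ) *
      (1 + ‖ξ‖) ^ (-(((n : ℝ) - 1) / 2))) := by
  have h2 : (2 : ℝ) ≤ n := by exact_mod_cast hn
  have hpi := Real.pi_gt_three
  have hpi4 := Real.pi_le_four
  have hx := norm_nonneg ξ
  have e1 : ‖(2 * Real.pi) • ξ‖ = 2 * Real.pi * ‖ξ‖ := by
    rw [norm_smul, Real.norm_of_nonneg (by positivity)]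
  rw [e1]
  have h3 : 1 + ‖ξ‖ ≤ 1 + 2 * Real.pi * ‖ξ‖ := by nlinarith
  have h4 : 1 + 2 * Real.pi * ‖ξ‖ ≤ 8 * (1 + ‖ξ‖) := by nlinarith
  have h5 : (1 + 2 * Real.pi * ‖ξ‖) ^ (-(((n : ℝ) - 1) / 2)) ≤
      (1 + ‖ξ‖) ^ (-(((n : ℝ) - 1) / 2)) :=
    Real.rpow_le_rpow_of_nonpos (by positivity) h3 (by linarith)
  have hl : 0 ≤ Real.log (1 + ‖ξ‖) := Real.log_nonneg (by linarith)
  have hl' : 0 ≤ Real.log (1 + 2 * Real.pi * ‖ξ‖) := Real.log_nonneg (by nlinarith)
  have h6 : 1 + Real.log (1 + 2 * Real.pi * ‖ξ‖) ≤ 3 * (1 + Real.log (1 + ‖ξ‖)) := by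
    have e2 : Real.log (1 + 2 * Real.pi * ‖ξ‖) ≤ Real.log (8 * (1 + ‖ξ‖)) :=
      Real.log_le_log (by positivity) h4
    have e3 : Real.log (8 * (1 + ‖ξ‖)) = Real.log 8 + Real.log (1 + ‖ξ‖) :=
      Real.log_mul (by norm_num) (by positivity)
    have e4 : Real.log 8 ≤ 2 + 1 / 5 := by
      have : Real.log 8 = 3 * Real.log 2 := by
        rw [show (8 : ℝ) = 2 ^ 3 by norm_num, Real.log_pow]
        norm_num
      rw [this]
      have := Real.log_two_lt_d9
      linarith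
    have e5 : Real.log 8 ≤ 2 + 2 * Real.log (1 + ‖ξ‖) ∨ Real.log (1 + ‖ξ‖) < 1 / 10 := by
      by_cases h : Real.log (1 + ‖ξ‖) < 1 / 10
      · exact Or.inr h
      · left
        push Not at h
        linarith
    rcases e5 with h | h
    · linarith
    · -- small frequencies
      have e6 : ‖ξ‖ ≤ 1 / 5 := by
        by_contra hcon
        push Not at hcon
        have e7 : Real.log (1 + 1 / 5) ≤ Real.log (1 + ‖ξ‖) :=
          Real.log_le_log (by norm_num) (by linarith)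
        have e8 : 1 - (1 + 1 / 5 : ℝ)⁻¹ ≤ Real.log (1 + 1 / 5) :=
          Real.one_sub_inv_le_log_of_pos (by norm_num)
        norm_num at e8 e7
        linarith
      have e7 : 1 + 2 * Real.pi * ‖ξ‖ ≤ 1 + 8 / 5 := by nlinarith
      have e8 : Real.log (1 + 2 * Real.pi * ‖ξ‖) ≤ 2 * Real.pi * ‖ξ‖ := by
        have := Real.log_le_sub_one_of_pos (by positivity : 0 < 1 + 2 * Real.pi * ‖ξ‖)
        linarith
      linarith
  have h7 : (1 + Real.log (1 + 2 * Real.pi * ‖ξ‖)) ^ (3 / 2 : ℝ) ≤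
      3 ^ (3 / 2 : ℝ) * (1 + Real.log (1 + ‖ξ‖)) ^ (3 / 2 : ℝ) := by
    rw [← Real.mul_rpow (by norm_num) (by linarith)]
    exact Real.rpow_le_rpow (by linarith) h6 (by norm_num)
  calc (1 + Real.log (1 + 2 * Real.pi * ‖ξ‖)) ^ (3 / 2 : ℝ) *
      (1 + 2 * Real.pi * ‖ξ‖) ^ (-(((n : ℝ) - 1) / 2))
      ≤ (3 ^ (3 / 2 : ℝ) * (1 + Real.log (1 + ‖ξ‖)) ^ (3 / 2 : ℝ)) *
        (1 + ‖ξ‖) ^ (-(((n : ℝ) - 1) / 2)) := by gcongr
    _ = _ := by ring

theorem cell_conv (n : ℕ) (hn : 2 ≤ n) (A' : ℝ) (m : ℕ) :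
    A' / 2 ^ (m * (n - 1)) = A' * (4 ^ m) ^ (-(((n : ℝ) - 1) / 2)) := by
  have h1 : ((4 : ℝ) ^ m) ^ (-(((n : ℝ) - 1) / 2)) = ((2 : ℝ) ^ (m * (n - 1)))⁻¹ := by
    have e1 : ((n - 1 : ℕ) : ℝ) = (n : ℝ) - 1 := by
      rw [Nat.cast_sub (by omega)]
      simp
    rw [Real.rpow_neg (by positivity)]
    congr 1
    rw [show (4 : ℝ) = 2 ^ 2 by norm_num, ← pow_mul, ← Real.rpow_natCast 2 (2 * m),
      ← Real.rpow_mul (by norm_num), ← Real.rpow_natCast 2 (m * (n - 1))]
    congr 1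
    push_cast
    rw [e1]
    ring
  rw [h1]
  rfl

/-- the function with the logarithm is in `L^p` -/
theorem weight_memLp (n : ℕ) (hn : 2 ≤ n) (p : ℝ) (hp : 2 * (n : ℝ) / (n - 1) < p) (B : ℝ) :
    MemLp (fun ξ : E n => B * ((1 + Real.log (1 + ‖ξ‖)) ^ (3 / 2 : ℝ) *
      (1 + ‖ξ‖) ^ (-(((n : ℝ) - 1) / 2)))) (ENNReal.ofReal p) := by
  have h2 : (2 : ℝ) ≤ n := by exact_mod_cast hn
  set d : ℝ := ((n : ℝ) - 1) / 2 with hd
  have hd0 : 0 < d := by simp only [hd]; linarith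
  have hp0 : 0 < p := lt_of_le_of_lt (by
    apply div_nonneg <;> linarith) hp
  have hpd : (n : ℝ) / p < d := by
    rw [div_lt_iff₀ (by linarith)] at hp
    rw [div_lt_iff₀ hp0]
    simp only [hd]
    linarith
  set e : ℝ := (d - n / p) / 3 with he
  have he0 : 0 < e := by simp only [he]; linarith
  set s : ℝ := (d + n / p) / 2 with hs
  have hs1 : (n : ℝ) < s * p := by
    have : (n : ℝ) / p < s := by simp only [hs]; linarith
    rwa [div_lt_iff₀ hp0] at this
  have hmain : MemLp (fun ξ : E n => (1 + ‖ξ‖) ^ (-s)) (ENNReal.ofReal p) := by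
    have hm : AEStronglyMeasurable (fun ξ : E n => (1 + ‖ξ‖) ^ (-s)) volume := by
      apply Measurable.aestronglyMeasurable
      fun_prop
    rw [← integrable_norm_rpow_iff hm (by simpa using hp0) ENNReal.ofReal_ne_top]
    rw [ENNReal.toReal_ofReal hp0.le]
    have hint : Integrable (fun ξ : E n => (1 + ‖ξ‖) ^ (-(s * p))) volume := by
      apply integrable_one_add_norm
      simpa using hs1
    refine hint.congr (Filter.Eventually.of_forall fun ξ => ?_)
    simp only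
    have hpos : (0 : ℝ) < 1 + ‖ξ‖ := by positivity
    rw [Real.norm_of_nonneg (by positivity), ← Real.rpow_mul hpos.le]
    congr 1
    ring
  have hle : ∀ ξ : E n, ‖B * ((1 + Real.log (1 + ‖ξ‖)) ^ (3 / 2 : ℝ) * (1 + ‖ξ‖) ^ (-d))‖ ≤
      (|B| * (1 + 1 / e) ^ (3 / 2 : ℝ)) * ‖(1 + ‖ξ‖) ^ (-s)‖ := by
    intro ξ
    have hX : (1 : ℝ) ≤ 1 + ‖ξ‖ := by have := norm_nonneg ξ; linarith
    have hX0 : (0 : ℝ) < 1 + ‖ξ‖ := by linarith
    have hl : 0 ≤ Real.log (1 + ‖ξ‖) := Real.log_nonneg hX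
    have e1 : Real.log (1 + ‖ξ‖) ≤ (1 + ‖ξ‖) ^ e / e := Real.log_le_rpow_div hX0.le he0
    have e2 : 1 + Real.log (1 + ‖ξ‖) ≤ (1 + 1 / e) * (1 + ‖ξ‖) ^ e := by
      have : 1 ≤ (1 + ‖ξ‖) ^ e := Real.one_le_rpow hX he0.le
      have e3 : (1 + 1 / e) * (1 + ‖ξ‖) ^ e = (1 + ‖ξ‖) ^ e + (1 + ‖ξ‖) ^ e / e := by ring
      rw [e3]
      linarith
    have e3 : (1 + Real.log (1 + ‖ξ‖)) ^ (3 / 2 : ℝ) ≤
        (1 + 1 / e) ^ (3 / 2 : ℝ) * (1 + ‖ξ‖) ^ (3 / 2 * e) := by
      calc (1 + Real.log (1 + ‖ξ‖)) ^ (3 / 2 : ℝ)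
          ≤ ((1 + 1 / e) * (1 + ‖ξ‖) ^ e) ^ (3 / 2 : ℝ) :=
            Real.rpow_le_rpow (by linarith) e2 (by norm_num)
        _ = _ := by
            rw [Real.mul_rpow (by positivity) (by positivity), ← Real.rpow_mul hX0.le]
            congr 2
            ring
    rw [Real.norm_eq_abs, abs_mul, abs_of_nonneg (by positivity :
      0 ≤ (1 + Real.log (1 + ‖ξ‖)) ^ (3 / 2 : ℝ) * (1 + ‖ξ‖) ^ (-d)),
      Real.norm_of_nonneg (by positivity), mul_assoc]
    gcongr |B| * ?_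
    calc (1 + Real.log (1 + ‖ξ‖)) ^ (3 / 2 : ℝ) * (1 + ‖ξ‖) ^ (-d)
        ≤ ((1 + 1 / e) ^ (3 / 2 : ℝ) * (1 + ‖ξ‖) ^ (3 / 2 * e)) * (1 + ‖ξ‖) ^ (-d) := by gcongr
      _ = (1 + 1 / e) ^ (3 / 2 : ℝ) * ((1 + ‖ξ‖) ^ (3 / 2 * e) * (1 + ‖ξ‖) ^ (-d)) := by ring
      _ = (1 + 1 / e) ^ (3 / 2 : ℝ) * (1 + ‖ξ‖) ^ (-s) := by
          rw [← Real.rpow_add hX0]
          congr 2
          simp only [hs, he]
          ring
  refine MemLp.of_le_mul hmain ?_ (Filter.Eventually.of_forall hle)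
  apply Measurable.aestronglyMeasurable
  have hlm : Measurable (fun ξ : E n => Real.log (1 + ‖ξ‖)) :=
    Real.measurable_log.comp (measurable_const.add measurable_norm)
  fun_prop

theorem ft_term {n : ℕ} (g : sphere (0 : E n) 1 → ℂ) (m : ℕ) (θ : sphere (0 : E n) 1 → ℝ)
    (Θ : E n → ℂ) (hΘ : ∀ y : sphere (0 : E n) 1, (θ y : ℂ) = Θ y) (ξ : E n) :
    ft (term m g θ) ξ = T (Term m (ex g) Θ) ((2 * Real.pi) • ξ) :=
  ft_of_eq (term_eq m g θ Θ hΘ) ξ

theorem decomposition {n : ℕ} (hn : 2 ≤ n) {g : sphere (0 : E n) 1 → ℂ} (hg : Measurable g)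
    (hg1 : ∀ x, ‖g x‖ ≤ 1) (ξ : E n) :
    HasSum (fun m => ft (term m g 1) ξ) (ft g ξ - ft (base g) ξ) := by
  have h1 := decomp hn (ex_meas hg) (ex_bound zero_le_one hg1) ((2 * Real.pi) • ξ)
  have h2 : ∀ m, ft (term m g 1) ξ = T (Term m (ex g) (fun _ => 1)) ((2 * Real.pi) • ξ) :=
    fun m => ft_term g m 1 (fun _ => 1) (fun y => by simp) ξ
  simp_rw [h2]
  rw [ft_eq g, ft_of_eq (base_eq g)]
  exact h1

theorem base_decay (n : ℕ) (hn : 2 ≤ n) : ∃ C : ℝ, 0 < C ∧ ∀ g : sphere (0 : E n) 1 → ℂ,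
    Measurable g → (∀ x, ‖g x‖ ≤ 1) → ∀ ξ,
    ‖ft (base g) ξ‖ ≤ C * (1 + ‖ξ‖) ^ (-(((n : ℝ) - 1) / 2)) := by
  obtain ⟨C, hC, hS⟩ := smooth_decay n hn
  have h2 : (2 : ℝ) ≤ n := by exact_mod_cast hn
  refine ⟨C, hC, fun g hg hg1 ξ => ?_⟩
  rw [ft_of_eq (base_eq g)]
  have h1 := hS (A 1 (ex g)) (A_meas _ (ex_meas hg)) 1
    (A_bound 1 (by norm_num) (ex_bound zero_le_one hg1)) ((2 * Real.pi) • ξ)
  rw [mul_one] at h1
  refine h1.trans ?_
  gcongr C * ?_
  apply Real.rpow_le_rpow_of_nonpos (by positivity) _ (by linarith)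
  rw [norm_smul, Real.norm_of_nonneg (by positivity)]
  have := Real.pi_gt_three
  nlinarith [norm_nonneg ξ]

theorem tail_bound (n : ℕ) (hn : 2 ≤ n) (A' : ℝ) : ∃ C : ℝ, 0 < C ∧
    ∀ g : sphere (0 : E n) 1 → ℂ, Measurable g → (∀ x, ‖g x‖ ≤ 1) → ∀ (Q : Cells n A')
    {Ω : Type*} [MeasurableSpace Ω] (P : Measure Ω) [IsProbabilityMeasure P] (X : Signs Q P)
    (L : ℝ), C ≤ L →
    P {ω | ¬ Bound g (X.mult ω) L} ≤ ENNReal.ofReal (Real.exp (-(L ^ 2) / C)) := by
  obtain ⟨C, hC, hT⟩ := tail_lib n hn |A'| (abs_nonneg _)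
  refine ⟨27 * C, by positivity, ?_⟩
  intro g hg hg1 Q Ω _ P _ X L hL
  obtain ⟨e, he⟩ := Pool.Agent.H789R2.FR.exists_unit n hn
  set x0 : sphere (0 : E n) 1 := ⟨e, by rwa [mem_sphere_zero_iff_norm]⟩ with hx0
  set q : ∀ m, E n → Fin (Q.N m) := fun m =>
    Function.extend Subtype.val (Q.q m) (fun _ => Q.q m x0) with hq
  have hqe : ∀ m (x : sphere (0 : E n) 1), q m (x : E n) = Q.q m x := fun m x =>
    Subtype.val_injective.extend_apply _ _ x
  have hqm : ∀ m, Measurable (q m) := fun m => (emb n).measurable_extend (Q.q_meas m)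
    measurable_const
  have hcell : ∀ m i, (sg n).real {w | q m w = i} ≤
      |A'| * (4 ^ m) ^ (-(((n : ℝ) - 1) / 2)) := by
    intro m i
    have h1 : (sg n).real {w | q m w = i} = (sigma n).real {x | Q.q m x = i} := by
      have hS : MeasurableSet {w | q m w = i} := hqm m (measurableSet_singleton i)
      unfold Measure.real sg sigma
      rw [Measure.map_apply measurable_subtype_coe hS]
      congr 2
      ext x
      simp only [mem_preimage, mem_ofPred_eq, hqe]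
    rw [h1, ← cell_conv n hn]
    refine (Q.small m i).trans ?_
    gcongr
    exact le_abs_self _
  set r : ℝ := 3 ^ (3 / 2 : ℝ) with hr
  have hr0 : 0 < r := by positivity
  have hr2 : r ^ 2 = 27 := by
    rw [hr, ← Real.rpow_natCast, ← Real.rpow_mul (by norm_num)]
    norm_num
  have hr27 : r ≤ 27 := by nlinarith
  have hLr : C ≤ L / r := by
    rw [le_div_iff₀ hr0]
    nlinarith
  have h1 := hT P (ex g) (ex_meas hg) (ex_bound zero_le_one hg1) Q.N q hqm hcell X.ε X.ε_meas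
    X.ε_le X.ε_mean X.ε_indep (L / r) hLr
  refine (measure_mono ?_).trans (h1.trans (ENNReal.ofReal_le_ofReal ?_))
  · intro ω hω hN
    apply hω
    intro ξ
    obtain ⟨hs1, hs2⟩ := hN ((2 * Real.pi) • ξ)
    have h2 : ∀ m, ft (term m g (X.mult ω m)) ξ =
        T (Term m (ex g) (fun w => (X.ε m (q m w) ω : ℂ))) ((2 * Real.pi) • ξ) := by
      intro m
      refine ft_term g m _ _ (fun y => ?_) ξ
      simp only [hqe]
      rfl
    simp_rw [h2]
    refine ⟨hs1, hs2.trans ?_⟩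
    have hL0 : 0 ≤ L / r := le_trans hC.le hLr
    have hw := weight n hn ξ
    calc L / r * (1 + Real.log (1 + ‖(2 * Real.pi) • ξ‖)) ^ (3 / 2 : ℝ) *
          (1 + ‖(2 * Real.pi) • ξ‖) ^ (-(((n : ℝ) - 1) / 2))
        = L / r * ((1 + Real.log (1 + ‖(2 * Real.pi) • ξ‖)) ^ (3 / 2 : ℝ) *
          (1 + ‖(2 * Real.pi) • ξ‖) ^ (-(((n : ℝ) - 1) / 2))) := by ring
      _ ≤ L / r * (r * ((1 + Real.log (1 + ‖ξ‖)) ^ (3 / 2 : ℝ) *
          (1 + ‖ξ‖) ^ (-(((n : ℝ) - 1) / 2)))) := by gcongr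
      _ = _ := by field_simp
  · apply Real.exp_le_exp.2
    rw [div_pow, hr2]
    apply le_of_eq
    field_simp

theorem ae_bound {n : ℕ} {A' C : ℝ} {g : sphere (0 : E n) 1 → ℂ} {Q : Cells n A'}
    {Ω : Type*} [MeasurableSpace Ω] {P : Measure Ω} {X : Signs Q P} (hC : 0 < C)
    (h : ∀ L, C ≤ L → P {ω | ¬ Bound g (X.mult ω) L} ≤
      ENNReal.ofReal (Real.exp (-(L ^ 2) / C))) :
    ∀ᵐ ω ∂P, ∃ L, Bound g (X.mult ω) L := by
  rw [ae_iff]
  apply le_antisymm _ bot_le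
  have h1 : Tendsto (fun k : ℝ => ENNReal.ofReal (Real.exp (-(k ^ 2) / C))) atTop (𝓝 0) := by
    rw [← ENNReal.ofReal_zero]
    apply ENNReal.tendsto_ofReal
    apply Real.tendsto_exp_atBot.comp
    have h2 : Tendsto (fun k : ℝ => k ^ 2 / C) atTop atTop :=
      (tendsto_pow_atTop (by norm_num)).atTop_div_const hC
    have h3 := tendsto_neg_atTop_atBot.comp h2
    refine h3.congr fun k => ?_
    simp [neg_div]
  refine ge_of_tendsto h1 ?_
  filter_upwards [eventually_ge_atTop C] with L hL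
  refine (measure_mono ?_).trans (h L hL)
  intro ω hω hb
  exact hω ⟨L, hb⟩

theorem sum_meas {α : Type*} [MeasurableSpace α] {f : ℕ → α → ℂ} (hf : ∀ m, Measurable (f m))
    (hs : ∀ x, Summable (fun m => f m x)) : Measurable (fun x => ∑' m, f m x) := by
  refine measurable_of_tendsto_metrizable (f := fun k x => ∑ m ∈ Finset.range k, f m x)
    (fun k => Finset.measurable_fun_sum _ fun m _ => hf m) ?_
  rw [tendsto_pi_nhds]
  intro x
  exact (hs x).hasSum.tendsto_sum_nat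

theorem bound_memLp {n : ℕ} (hn : 2 ≤ n) {g : sphere (0 : E n) 1 → ℂ} (hg : Measurable g)
    {θ : ℕ → sphere (0 : E n) 1 → ℝ} (hθ : ∀ m, Measurable (θ m)) {C L : ℝ} (hC : 0 < C)
    (hbase : ∀ ξ, ‖ft (base g) ξ‖ ≤ C * (1 + ‖ξ‖) ^ (-(((n : ℝ) - 1) / 2)))
    (hB : Bound g θ L) (p : ℝ) (hp : 2 * (n : ℝ) / (n - 1) < p) :
    MemLp (modifiedFt g θ) (ENNReal.ofReal p) := by
  have hs : ∀ ξ, Summable (fun m => ft (term m g (θ m)) ξ) := fun ξ => (hB ξ).1.of_norm
  have hm : Measurable (modifiedFt g θ) :=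
    (ft_meas (av_meas _ (av_meas _ hg))).add (sum_meas (fun m => ft_meas (term_meas m hg (hθ m))) hs)
  refine MemLp.of_le (weight_memLp n hn p hp (C + L)) hm.aestronglyMeasurable
    (Filter.Eventually.of_forall fun ξ => ?_)
  have h1 := (hB ξ).2
  have h2 : ‖∑' m, ft (term m g (θ m)) ξ‖ ≤ ∑' m, ‖ft (term m g (θ m)) ξ‖ :=
    norm_tsum_le_tsum_norm (hB ξ).1
  have hl : 0 ≤ Real.log (1 + ‖ξ‖) := Real.log_nonneg (by have := norm_nonneg ξ; linarith)
  have h3 : 1 ≤ (1 + Real.log (1 + ‖ξ‖)) ^ (3 / 2 : ℝ) :=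
    Real.one_le_rpow (by linarith) (by norm_num)
  have h4 : 0 ≤ (1 + ‖ξ‖) ^ (-(((n : ℝ) - 1) / 2)) := by positivity
  have h5 : 0 ≤ C * (1 + ‖ξ‖) ^ (-(((n : ℝ) - 1) / 2)) := by positivity
  refine le_trans ?_ (le_abs_self _)
  calc ‖modifiedFt g θ ξ‖ ≤ ‖ft (base g) ξ‖ + ‖∑' m, ft (term m g (θ m)) ξ‖ := norm_add_le _ _
    _ ≤ C * (1 + ‖ξ‖) ^ (-(((n : ℝ) - 1) / 2)) * 1 +
        L * (1 + Real.log (1 + ‖ξ‖)) ^ (3 / 2 : ℝ) * (1 + ‖ξ‖) ^ (-(((n : ℝ) - 1) / 2)) := by
        rw [mul_one]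
        exact add_le_add (hbase ξ) (h2.trans h1)
    _ ≤ C * (1 + ‖ξ‖) ^ (-(((n : ℝ) - 1) / 2)) * (1 + Real.log (1 + ‖ξ‖)) ^ (3 / 2 : ℝ) +
        L * (1 + Real.log (1 + ‖ξ‖)) ^ (3 / 2 : ℝ) * (1 + ‖ξ‖) ^ (-(((n : ℝ) - 1) / 2)) := by
        gcongr
    _ = _ := by ring

/-- the modified density -/
theorem modified_prop {n : ℕ} {g : sphere (0 : E n) 1 → ℂ} (hg : Measurable g)
    (hg1 : ∀ x, ‖g x‖ ≤ 1) {θ : ℕ → sphere (0 : E n) 1 → ℝ} (hθ : ∀ m, Measurable (θ m))
    (x0 : sphere (0 : E n) 1) {c : ℕ → ℝ} (hc : Summable c)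
    (hθc : ∀ m x, ‖(θ m x : ℂ) * part m g x‖ ≤ c m) :
    Measurable (modified g θ) ∧ (∀ x, ‖modified g θ x‖ ≤ 1 + 2 * ∑' m, c m) ∧
      ft (modified g θ) = modifiedFt g θ := by
  have hfin : IsFiniteMeasure (sigma n) := by
    unfold sigma
    infer_instance
  have hc0 : ∀ m, 0 ≤ c m := fun m => (norm_nonneg _).trans (hθc m x0)
  have hb : ∀ m x, ‖term m g (θ m) x‖ ≤ 2 * c m := fun m x =>
    term_bound m (hc0 m) (hθc m) x
  have hs : ∀ x, Summable (fun m => term m g (θ m) x) := fun x =>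
    Summable.of_norm_bounded (hc.mul_left 2) fun m => hb m x
  have hsn : ∀ x, Summable (fun m => ‖term m g (θ m) x‖) := fun x =>
    Summable.of_nonneg_of_le (fun m => norm_nonneg _) (fun m => hb m x) (hc.mul_left 2)
  have hm := sum_meas (fun m => term_meas m hg (hθ m)) hs
  have hbm : Measurable (base g) := av_meas _ (av_meas _ hg)
  have hb1 : ∀ x, ‖base g x‖ ≤ 1 :=
    av_bound zero_le_one zero_le_one (av_bound zero_le_one zero_le_one hg1)
  have hsb : ∀ x, ‖∑' m, term m g (θ m) x‖ ≤ 2 * ∑' m, c m := by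
    intro x
    rw [← tsum_mul_left]
    exact (norm_tsum_le_tsum_norm (hsn x)).trans ((hsn x).tsum_le_tsum (fun m => hb m x)
      (hc.mul_left 2))
  refine ⟨hbm.add hm, fun x => ?_, ?_⟩
  · calc ‖modified g θ x‖ ≤ ‖base g x‖ + ‖∑' m, term m g (θ m) x‖ := norm_add_le _ _
      _ ≤ _ := add_le_add (hb1 x) (hsb x)
  · funext ξ
    have hint : ∀ {h : sphere (0 : E n) 1 → ℂ} {M : ℝ}, Measurable h → (∀ x, ‖h x‖ ≤ M) →
        Integrable (fun x : sphere (0 : E n) 1 =>
          Complex.exp (-(2 * Real.pi * ⟪(x : E n), ξ⟫ : ℝ) * I) * h x) (sigma n) := by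
      intro h M hh hM
      refine Integrable.of_bound ((exp_meas ξ).mul hh).aestronglyMeasurable M
        (Filter.Eventually.of_forall fun x => ?_)
      rw [norm_mul, exp_norm, one_mul]
      exact hM x
    have h1 : ft (modified g θ) ξ = ft (base g) ξ + ft (fun x => ∑' m, term m g (θ m) x) ξ := by
      unfold ft modified
      rw [← integral_add (hint hbm hb1) (hint hm hsb)]
      congr 1
      ext x
      ring
    have h2 : HasSum (fun m => ft (term m g (θ m)) ξ)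
        (ft (fun x => ∑' m, term m g (θ m) x) ξ) := by
      have h3 := hasSum_integral_of_summable_integral_norm (μ := sigma n)
        (F := fun m (x : sphere (0 : E n) 1) =>
          Complex.exp (-(2 * Real.pi * ⟪(x : E n), ξ⟫ : ℝ) * I) * term m g (θ m) x)
        (fun m => hint (term_meas m hg (hθ m)) (hb m)) (by
          refine Summable.of_nonneg_of_le (fun m => integral_nonneg fun x => norm_nonneg _)
            (fun m => ?_) (hc.mul_left (2 * (sigma n).real univ))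
          calc ∫ x, ‖Complex.exp (-(2 * Real.pi * ⟪(x : E n), ξ⟫ : ℝ) * I) *
                term m g (θ m) x‖ ∂(sigma n) ≤ ∫ _x, 2 * c m ∂(sigma n) := by
                apply integral_mono_of_nonneg
                · exact Filter.Eventually.of_forall fun x => norm_nonneg _
                · exact integrable_const _
                · refine Filter.Eventually.of_forall fun x => ?_
                  simp only
                  rw [norm_mul, exp_norm, one_mul]
                  exact hb m x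
            _ = 2 * (sigma n).real univ * c m := by
                simp
                ring)
      simp_rw [tsum_mul_left] at h3
      exact h3
    rw [h1, modifiedFt, h2.tsum_eq]

theorem Signs.mult_meas {n : ℕ} {A : ℝ} {Q : Cells n A} {Ω : Type*} [MeasurableSpace Ω]
    {P : Measure Ω} (X : Signs Q P) (ω : Ω) (m : ℕ) : Measurable (X.mult ω m) :=
  (measurable_of_finite (fun i : Fin (Q.N m) => X.ε m i ω)).comp (Q.q_meas m)

/-- fair signs for all the cells -/
noncomputable def coin : Measure Bool := (PMF.uniformOfFintype Bool).toMeasure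

instance : IsProbabilityMeasure coin := by unfold coin; infer_instance

noncomputable def sgn (b : Bool) : ℝ := if b then 1 else -1

theorem coin_mean : ∫ b, sgn b ∂coin = 0 := by
  unfold coin
  rw [PMF.integral_eq_sum]
  simp [sgn]

theorem exists_signs {n : ℕ} {A : ℝ} (Q : Cells n A) :
    ∃ (P : Measure ((Σ m, Fin (Q.N m)) → Bool)) (_ : IsProbabilityMeasure P) (X : Signs Q P),
      ∀ m i ω, X.ε m i ω = 1 ∨ X.ε m i ω = -1 := by
  let P : Measure ((Σ m, Fin (Q.N m)) → Bool) := Measure.infinitePi (fun _ => coin)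
  have hsm : Measurable sgn := measurable_of_finite _
  have hind : iIndepFun (fun (k : Σ m, Fin (Q.N m)) (ω : (Σ m, Fin (Q.N m)) → Bool) =>
      sgn (ω k)) P := iIndepFun_infinitePi (P := fun _ => coin) (X := fun _ => sgn) (fun _ => hsm)
  refine ⟨P, inferInstance, ⟨fun m i ω => sgn (ω ⟨m, i⟩), ?_, ?_, ?_, ?_⟩, ?_⟩
  · intro m i
    exact hsm.comp (measurable_pi_apply _)
  · intro m i ω
    unfold sgn
    split_ifs <;> simp
  · intro m i
    have h1 : MeasurePreserving (fun ω : (Σ m, Fin (Q.N m)) → Bool => ω ⟨m, i⟩) P coin :=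
      measurePreserving_eval_infinitePi (fun _ : (Σ m, Fin (Q.N m)) => coin)
        (⟨m, i⟩ : Σ m, Fin (Q.N m))
    have h2 := coin_mean
    rw [← h1.map_eq, integral_map h1.measurable.aemeasurable hsm.aestronglyMeasurable] at h2
    exact h2
  · intro m
    exact hind.precomp (g := fun i : Fin (Q.N m) => (⟨m, i⟩ : Σ m, Fin (Q.N m)))
      (fun i j h => by simpa using h)
  · intro m i ω
    simp only [sgn]
    split_ifs <;> simp

theorem Bound.mono {n : ℕ} {g : sphere (0 : E n) 1 → ℂ}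
    {θ : ℕ → sphere (0 : E n) 1 → ℝ} {L L' : ℝ} (h : Bound g θ L) (hL : L ≤ L') :
    Bound g θ L' := by
  intro ξ
  refine ⟨(h ξ).1, (h ξ).2.trans ?_⟩
  have hl : 0 ≤ Real.log (1 + ‖ξ‖) := Real.log_nonneg (by have := norm_nonneg ξ; linarith)
  gcongr

/-! ### Partitions into cells exist -/

/-- the lattice cell of a point of the sphere -/
noncomputable def lcell {n : ℕ} (m : ℕ) (x : sphere (0 : E n) 1) : Fin n → Fin (2 ^ (m + 1) + 1) :=
  fun i => Fin.ofNat _ (⌊2 ^ m * (x : E n) i⌋ + 2 ^ m).toNat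

theorem lcell_meas {n : ℕ} (m : ℕ) : Measurable (lcell m : sphere (0 : E n) 1 → _) := by
  rw [measurable_pi_iff]
  intro i
  have h1 : Measurable (fun x : sphere (0 : E n) 1 => 2 ^ m * (x : E n) i) := by
    apply Continuous.measurable
    fun_prop
  exact (measurable_of_countable (fun k : ℤ => (Fin.ofNat (2 ^ (m + 1) + 1)
    (k + 2 ^ m).toNat))).comp h1.floor

theorem coord_le {n : ℕ} (x : sphere (0 : E n) 1) (i : Fin n) : |(x : E n) i| ≤ 1 := by
  have h2 : ‖(x : E n) i‖ ≤ ‖(x : E n)‖ := PiLp.norm_apply_le (x : E n) i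
  rw [Real.norm_eq_abs, Sp_norm] at h2
  exact h2

theorem lcell_eq {n : ℕ} (m : ℕ) (x y : sphere (0 : E n) 1) (h : lcell m x = lcell m y)
    (i : Fin n) : |(x : E n) i - (y : E n) i| ≤ 1 / 2 ^ m := by
  have hf : ∀ z : sphere (0 : E n) 1, 0 ≤ ⌊2 ^ m * (z : E n) i⌋ + 2 ^ m ∧
      (⌊2 ^ m * (z : E n) i⌋ + 2 ^ m).toNat < 2 ^ (m + 1) + 1 := by
    intro z
    have h1 := coord_le z i
    rw [abs_le] at h1
    have hp : (0 : ℝ) < 2 ^ m := by positivity
    have h2 : (-(2 ^ m) : ℤ) ≤ ⌊2 ^ m * (z : E n) i⌋ := by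
      rw [Int.le_floor]
      push_cast
      nlinarith
    have h3 : ⌊2 ^ m * (z : E n) i⌋ ≤ 2 ^ m := by
      have : (⌊2 ^ m * (z : E n) i⌋ : ℝ) ≤ 2 ^ m * (z : E n) i := Int.floor_le _
      have h4 : (⌊2 ^ m * (z : E n) i⌋ : ℝ) ≤ 2 ^ m := by nlinarith
      exact_mod_cast h4
    refine ⟨by linarith, ?_⟩
    have h5 : ⌊2 ^ m * (z : E n) i⌋ + 2 ^ m ≤ ((2 ^ (m + 1) : ℕ) : ℤ) := by
      push_cast
      rw [pow_succ]
      linarith
    have h6 := Int.toNat_le.2 h5
    omega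
  have h1 : ⌊2 ^ m * (x : E n) i⌋ = ⌊2 ^ m * (y : E n) i⌋ := by
    have h2 := congrArg Fin.val (congrFun h i)
    simp only [lcell, Fin.val_ofNat] at h2
    rw [Nat.mod_eq_of_lt (hf x).2, Nat.mod_eq_of_lt (hf y).2] at h2
    have h3 := (hf x).1
    have h4 := (hf y).1
    omega
  have hp : (0 : ℝ) < 2 ^ m := by positivity
  have h2 : |2 ^ m * (x : E n) i - 2 ^ m * (y : E n) i| < 1 :=
    Int.abs_sub_lt_one_of_floor_eq_floor h1
  rw [← mul_sub, abs_mul, abs_of_pos hp] at h2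
  rw [le_div_iff₀ hp]
  linarith

/-- Such partitions exist. -/
theorem exists_cells (n : ℕ) (hn : 2 ≤ n) : ∃ A : ℝ, Nonempty (Cells n A) := by
  obtain ⟨C, hC, hcap⟩ := cap_upper n hn
  refine ⟨C * (2 * n) ^ (n - 1), ⟨⟨fun m => Fintype.card (Fin n → Fin (2 ^ (m + 1) + 1)),
    fun m x => Fintype.equivFin _ (lcell m x),
    fun m => (measurable_of_finite _).comp (lcell_meas m), ?_⟩⟩⟩
  intro m i
  have hset : {x : sphere (0 : E n) 1 | Fintype.equivFin (Fin n → Fin (2 ^ (m + 1) + 1))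
      (lcell m x) = i} = {x | lcell m x = (Fintype.equivFin _).symm i} := by
    ext x
    simp only [mem_ofPred_eq]
    exact Equiv.eq_symm_apply _ |>.symm
  rw [hset]
  set v := (Fintype.equivFin (Fin n → Fin (2 ^ (m + 1) + 1))).symm i
  have hn0 : (0 : ℝ) < n := by positivity
  rcases Set.eq_empty_or_nonempty {x : sphere (0 : E n) 1 | lcell m x = v} with h | ⟨y, hy⟩
  · rw [h, measureReal_empty]
    positivity
  · have h1 := hcap (2 * n * (1 / 2 ^ m)) (by positivity) (y : E n) (Sp_norm y)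
    have hfin : IsFiniteMeasure (sigma n) := by
      unfold sigma
      infer_instance
    have h2 : (sigma n).real {x | lcell m x = v} ≤
        (sg n).real {w | ‖(y : E n) - w‖ < 2 * n * (1 / 2 ^ m)} := by
      have hS : MeasurableSet {w : E n | ‖(y : E n) - w‖ < 2 * n * (1 / 2 ^ m)} :=
        Pool.Agent.H789R2.FR.cap_meas _ _
      have h3 : (sg n).real {w | ‖(y : E n) - w‖ < 2 * n * (1 / 2 ^ m)} =
          (sigma n).real {x | ‖(y : E n) - x‖ < 2 * n * (1 / 2 ^ m)} := by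
        unfold Measure.real sg sigma
        rw [Measure.map_apply measurable_subtype_coe hS]
        rfl
      rw [h3]
      refine measureReal_mono ?_
      intro x hx
      simp only [mem_ofPred_eq] at hx hy ⊢
      have h4 := lcell_eq m y x (hy.trans hx.symm)
      rw [EuclideanSpace.norm_eq]
      have h5 : ∑ i, ‖((y : E n) - (x : E n)) i‖ ^ 2 ≤ ∑ _i : Fin n, ((1 : ℝ) / 2 ^ m) ^ 2 := by
        refine Finset.sum_le_sum fun i _ => ?_
        have e1 : ((y : E n) - (x : E n)) i = (y : E n) i - (x : E n) i := rfl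
        rw [e1, Real.norm_eq_abs]
        exact pow_le_pow_left₀ (abs_nonneg _) (h4 i) 2
      have h6 : ∑ _i : Fin n, ((1 : ℝ) / 2 ^ m) ^ 2 = (n : ℝ) * ((1 : ℝ) / 2 ^ m) ^ 2 := by
        simp
      rw [h6] at h5
      have hp : (0 : ℝ) < 1 / 2 ^ m := by positivity
      rw [Real.sqrt_lt' (by positivity)]
      refine lt_of_le_of_lt h5 ?_
      have h7 : (1 : ℝ) ≤ n := by exact_mod_cast (by omega : 1 ≤ n)
      nlinarith [mul_pos hp hp, mul_pos (mul_pos hn0 hn0) (mul_pos hp hp)]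
    refine h2.trans (h1.trans (le_of_eq ?_))
    rw [mul_pow, one_div, inv_pow, ← pow_mul]
    field_simp

/-- **Main theorem.** -/
theorem result (n : ℕ) (hn : 2 ≤ n) (A : ℝ) : ∃ C : ℝ, 0 < C ∧
    ∀ g : sphere (0 : E n) 1 → ℂ, Measurable g → (∀ x, ‖g x‖ ≤ 1) →
    -- with all multipliers equal to one the series is the Fourier transform of `g dσ`
    (∀ ξ, HasSum (fun m => ft (term m g 1) ξ) (ft g ξ - ft (base g) ξ)) ∧
    (∀ ξ, ‖ft (base g) ξ‖ ≤ C * (1 + ‖ξ‖) ^ (-(((n : ℝ) - 1) / 2))) ∧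
    ∀ Q : Cells n A,
      (∀ {Ω : Type*} [MeasurableSpace Ω] (P : Measure Ω) [IsProbabilityMeasure P]
        (X : Signs Q P),
        -- the bound with sub-Gaussian tails
        (∀ L, C ≤ L → P {ω | ¬ Bound g (X.mult ω) L} ≤
          ENNReal.ofReal (Real.exp (-(L ^ 2) / C))) ∧
        -- almost surely, the full range of Stein's conjecture
        ∀ᵐ ω ∂P,
          (∀ p : ℝ, 2 * (n : ℝ) / (n - 1) < p →
            MemLp (modifiedFt g (X.mult ω)) (ENNReal.ofReal p)) ∧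
          -- the modified density, if the modified parts have summable sup norms
          ∀ c : ℕ → ℝ, Summable c → (∀ m x, ‖(X.mult ω m x : ℂ) * part m g x‖ ≤ c m) →
            Measurable (modified g (X.mult ω)) ∧
            (∀ x, ‖modified g (X.mult ω) x‖ ≤ 1 + 2 * ∑' m, c m) ∧
            ft (modified g (X.mult ω)) = modifiedFt g (X.mult ω)) ∧
      -- deterministic signs
      ∃ s : ∀ m, Fin (Q.N m) → ℝ, (∀ m i, s m i = 1 ∨ s m i = -1) ∧
        Bound g (fun m x => s m (Q.q m x)) C ∧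
        ∀ p : ℝ, 2 * (n : ℝ) / (n - 1) < p →
          MemLp (modifiedFt g (fun m x => s m (Q.q m x))) (ENNReal.ofReal p) := by
  obtain ⟨C1, hC1, h1⟩ := base_decay n hn
  obtain ⟨C2, hC2, h2⟩ := tail_bound n hn A
  obtain ⟨C3, hC3, h3⟩ := tail_bound.{0} n hn A
  obtain ⟨e, he⟩ := Pool.Agent.H789R2.FR.exists_unit n hn
  set C : ℝ := C1 + C2 + C3 with hC
  have hC0 : 0 < C := by positivity
  refine ⟨C, hC0, fun g hg hg1 => ?_⟩
  have hbase : ∀ ξ, ‖ft (base g) ξ‖ ≤ C * (1 + ‖ξ‖) ^ (-(((n : ℝ) - 1) / 2)) := by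
    intro ξ
    refine (h1 g hg hg1 ξ).trans ?_
    gcongr
    linarith
  refine ⟨decomposition hn hg hg1, hbase, fun Q => ⟨?_, ?_⟩⟩
  · intro Ω _ P _ X
    have hX : ∀ L, C ≤ L → P {ω | ¬ Bound g (X.mult ω) L} ≤
        ENNReal.ofReal (Real.exp (-(L ^ 2) / C)) := by
      intro L hL
      refine (h2 g hg hg1 Q P X L (by linarith)).trans (ENNReal.ofReal_le_ofReal ?_)
      apply Real.exp_le_exp.2
      rw [neg_div, neg_div]
      apply neg_le_neg
      apply div_le_div_of_nonneg_left (sq_nonneg _) hC2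
      linarith
    refine ⟨hX, ?_⟩
    filter_upwards [ae_bound hC0 hX] with ω hω
    obtain ⟨L, hL⟩ := hω
    refine ⟨fun p hp => bound_memLp hn hg (X.mult_meas ω) hC0 hbase hL p hp, fun c hc hθc => ?_⟩
    exact modified_prop hg hg1 (X.mult_meas ω) ⟨e, by rwa [mem_sphere_zero_iff_norm]⟩ hc hθc
  · obtain ⟨P, hP, X, hX⟩ := exists_signs Q
    have h4 := h3 g hg hg1 Q P X C (by linarith)
    have h5 : ∃ ω, Bound g (X.mult ω) C := by
      by_contra hcon
      push Not at hcon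
      have h6 : {ω | ¬ Bound g (X.mult ω) C} = univ := by
        ext ω
        simp [hcon ω]
      rw [h6, measure_univ] at h4
      have h7 : Real.exp (-(C ^ 2) / C3) < 1 := by
        rw [Real.exp_lt_one_iff]
        have : 0 < C ^ 2 / C3 := by positivity
        rw [neg_div]
        linarith
      have h8 : ENNReal.ofReal (Real.exp (-(C ^ 2) / C3)) < 1 := by
        rw [← ENNReal.ofReal_one]
        exact (ENNReal.ofReal_lt_ofReal_iff (by norm_num)).2 h7
      exact absurd h4 (not_le.2 h8)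
    obtain ⟨ω, hω⟩ := h5
    have hmeas : ∀ m, Measurable (fun x : sphere (0 : E n) 1 => X.ε m (Q.q m x) ω) :=
      X.mult_meas ω
    exact ⟨fun m i => X.ε m i ω, fun m i => hX m i ω, hω,
      fun p hp => bound_memLp hn hg hmeas hC0 hbase hω p hp⟩

end Pool.Agent.Results.MP_6cbfb8_an.RandomSigns
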