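import Mathlib
import Pool.Agent.W5h55.SH.C12
set_option autoImplicit false

/-!
# Stein's restriction conjecture along the Schroedinger flow of the sphere

Let `n ≥ 3` and let `u(s) = exp(i s Δ) g = ∑ exp(-i s k (k + n - 2)) Y_k` be the solution of the
Schroedinger equation on the sphere `S^(n-1)` whose initial value is an arbitrary `g ∈ L²(S^(n-1))`
with spherical harmonic expansion `g = ∑ Y_k`. Let `2n/(n-1) < p ≤ 4` (for `p ≥ 2(n+1)/(n-1)`, in
particular for `p ≥ 4`, the Stein-Tomas theorem applies to every time). Put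
`β = 1 - ((n-1)p - 2n)/4 < 1`.

* For every `α > β` and every measure `μ` on the time axis with `μ [a, b] ≤ (b - a)^α` (such as
  Lebesgue measure, `α = 1`), the average over `(0, 2π]` with respect to `μ` of the `p`-th power of
  the `L^p(ℝ^n)` norm of the Fourier transform of `u(s) dσ` is at most a constant multiple of
  `∫_0^(2π) ‖u(s)‖_p^p ds`, where the constant depends on `n`, `p`, `α` only.
* If `∫_0^(2π) ‖u(s)‖_p^p ds` is finite then the exceptional times `s`, at which the Fourier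
  transform of `u(s) dσ` is not in `L^p(ℝ^n)`, form a set of Hausdorff dimension at most
  `max (β, 0) < 1`.
-/

namespace Pool.Agent.Results.MP_6cbfb8_an.SchrodingerFlow

open MeasureTheory Set Metric Filter
open scoped ENNReal Topology RealInnerProductSpace

/-- Euclidean space -/
abbrev E (n : ℕ) := EuclideanSpace ℝ (Fin n)

/-- surface measure on the unit sphere -/
noncomputable def sigma (n : ℕ) : Measure (sphere (0 : E n) 1) := (volume : Measure (E n)).toSphere

/-- the Fourier transform of the measure `g dσ` -/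
noncomputable def ft {n : ℕ} (g : sphere (0 : E n) 1 → ℂ) (ξ : E n) : ℂ :=
  ∫ x, Complex.exp (-(2 * Real.pi * ⟪(x : E n), ξ⟫ : ℝ) * Complex.I) * g x ∂(sigma n)

/-- `Y` is a spherical harmonic of degree `k`: the restriction to the unit sphere of a homogeneous
harmonic polynomial of degree `k` with complex coefficients. -/
def SphericalHarmonic {n : ℕ} (k : ℕ) (Y : sphere (0 : E n) 1 → ℂ) : Prop :=
  ∃ Q : MvPolynomial (Fin n) ℂ, Q.IsHomogeneous k ∧
    ∑ i, MvPolynomial.pderiv i (MvPolynomial.pderiv i Q) = 0 ∧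
    ∀ x : sphere (0 : E n) 1, Y x = MvPolynomial.eval (fun i => (((x : E n) i : ℝ) : ℂ)) Q

/-- `u(s) = ∑ exp(-i s k (k + n - 2)) Y_k` (convergence in `L²` for every time `s`) is the solution
of the Schroedinger equation on the sphere with initial value `∑ Y_k ∈ L²`, where `Y_k` is a
spherical harmonic of degree `k`; `-k (k + n - 2)` is the eigenvalue of the Laplace-Beltrami
operator on `Y_k`. -/
structure Solution {n : ℕ} (Y : ℕ → sphere (0 : E n) 1 → ℂ)
    (u : ℝ → sphere (0 : E n) 1 → ℂ) : Prop where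
  harmonic : ∀ k, SphericalHarmonic k (Y k)
  initial : ∑' k, ∫⁻ x, ‖Y k x‖ₑ ^ (2 : ℝ) ∂(sigma n) ≠ ⊤
  measurable : Measurable (Function.uncurry u)
  flow : ∀ s : ℝ, Tendsto (fun M : ℕ => eLpNorm (fun x => u s x - ∑ k ∈ Finset.range M,
    Complex.exp (-(s * ((k : ℝ) * (k + n - 2)) : ℝ) * Complex.I) * Y k x) 2 (sigma n)) atTop (𝓝 0)

/-- **Theorem.** Stein's restriction conjecture along the Schroedinger flow of the sphere: fractal
averages in time and the dimension of the set of exceptional times. -/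
theorem result (n : ℕ) (hn : 3 ≤ n) (p : ℝ) (hp : 2 * (n : ℝ) / (n - 1) < p) (hp4 : p ≤ 4) :
    (∀ α : ℝ, 1 - ((n - 1) * p - 2 * n) / 4 < α → ∃ C : ℝ,
      ∀ (Y : ℕ → sphere (0 : E n) 1 → ℂ) (u : ℝ → sphere (0 : E n) 1 → ℂ), Solution Y u →
        ∀ μ : Measure ℝ, (∀ a b : ℝ, a ≤ b → μ (Icc a b) ≤ ENNReal.ofReal ((b - a) ^ α)) →
          ∫⁻ s in Ioc 0 (2 * Real.pi), (∫⁻ ξ, ‖ft (u s) ξ‖ₑ ^ p ∂volume) ∂μ ≤
            ENNReal.ofReal C *
              ∫⁻ s in Ioc 0 (2 * Real.pi), (∫⁻ x, ‖u s x‖ₑ ^ p ∂(sigma n)) ∂volume) ∧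
    (∀ (Y : ℕ → sphere (0 : E n) 1 → ℂ) (u : ℝ → sphere (0 : E n) 1 → ℂ), Solution Y u →
      ∫⁻ s in Ioc 0 (2 * Real.pi), (∫⁻ x, ‖u s x‖ₑ ^ p ∂(sigma n)) ∂volume ≠ ⊤ →
        dimH {s : ℝ | ¬ MemLp (ft (u s)) (ENNReal.ofReal p) volume} ≤
          ENNReal.ofReal (1 - ((n - 1) * p - 2 * n) / 4)) := by
  have hn' : (3 : ℝ) ≤ n := by exact_mod_cast hn
  have hp2 : 2 < p := by
    refine lt_of_le_of_lt ?_ hp
    rw [le_div_iff₀ (by linarith)]
    linarith
  have key : ∀ (Y : ℕ → sphere (0 : E n) 1 → ℂ) (u : ℝ → sphere (0 : E n) 1 → ℂ), Solution Y u →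
      ∃ P : ℕ → MvPolynomial (Fin n) ℂ, Pool.Agent.W5h55.SH.Fl P u := by
    intro Y u h
    choose Q hQ1 hQ2 hQ3 using h.harmonic
    have hY : ∀ k, Y k = fun x : sphere (0 : E n) 1 => Pool.Agent.W5h55.SH.ev (Q k) (x : E n) :=
      fun k => funext fun x => hQ3 k x
    refine ⟨Q, hQ1, hQ2, h.measurable, ?_, fun s => ?_⟩
    · have h1 := h.initial
      simp_rw [hY] at h1
      exact h1
    · have h1 := h.flow s
      simp_rw [hY] at h1
      refine h1.congr fun M => ?_
      congr 1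
      funext x
      unfold Pool.Agent.W5h55.SH.SM Pool.Agent.W5h55.SH.ek
      congr 1
      refine Finset.sum_congr rfl fun k _ => ?_
      congr 4
      have h2 := Pool.Agent.W5h55.SH.lam_cast (n := n) (by omega) k
      have h3 : (((Pool.Agent.W5h55.SH.lam n k : ℤ) : ℝ)) = (k : ℝ) * (k + n - 2) := by
        rw [h2]
        push_cast
        ring
      rw [h3]
      ring_nf
  refine ⟨fun α hα => ?_, fun Y u h hfin => ?_⟩
  · obtain ⟨C, -, h⟩ := Pool.Agent.W5h55.SH.flow_frac n hn p hp2 hp4 α hα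
    refine ⟨C, fun Y u hs μ hμ => ?_⟩
    obtain ⟨P, hP⟩ := key Y u hs
    exact h P u hP μ hμ
  · obtain ⟨P, hP⟩ := key Y u h
    exact Pool.Agent.W5h55.SH.flow_dim n hn p hp2 hp4 hP hfin

end Pool.Agent.Results.MP_6cbfb8_an.SchrodingerFlow
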